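import Pool.Agent.H71.RT.Herm
import Pool.Agent.H71.RT.RegG
import Pool.Agent.H71.RT.RegT
import Pool.Agent.H71.RM.Minima

/-!
# The rank and the regulator of `E/K` as `K` varies: lower bounds for `R_{E/K}` over every number field in
# terms of the rank and of the discriminant, and the bounds over the towers of quadratic extensions

`E : y² = x³ + a x + b` with `a, b ∈ ℤ` (every elliptic curve over `ℚ` has such an equation), and `K` runs
over the number fields of degree `n`. The canonical height and the regulator `R_{E/K}` are taken relative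
to `K`, as in the refined formula of Birch and Swinnerton-Dyer for `E/K`. Nothing is assumed. The constants
`C`, `c > 0` depend only on `E` and `n`.

1. For EVERY number field `K` of degree `n`, with `r` the rank of `E(K)`:
   `R_{E/K} ≥ c ^ r` (a lattice of this rank whose shortest vectors have length `≫ 1` could have the
   determinant `r ^ (- r / 2)`), and `r ≤ C (1 + log |Disc K|)`, so that `R_{E/K} ≥ (e |Disc K|) ^ (-C)`.
   Moreover, let `ρ` be any number that is at least the rank of `E(k)` for all proper subfields `k` of `K`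
   (if `n` is a prime: the rank of `E(ℚ)`). Then
   `R_{E/K} ≥ c ^ r ∏_{ρ < i ≤ r} max (1, log |Disc K| / i)`.
2. Consequently there are only finitely many number fields `K` of degree `n` for which the rank of `E(K)` is
   a given `r ≥ 1`, greater than the ranks over all proper subfields, and the regulator is at most `B`. This is
   the analogue for elliptic curves of the theorem of Silverman (1984) on the regulators of number fields.
3. If `K` is contained in a Galois extension of `ℚ` of 2-power degree, that is, if `K` is the top of a tower of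
   quadratic extensions, then
   `R_{E/K} ≥ (c log (1 + r)) ^ r` (the regulator tends to infinity with the rank), and
   `r ≤ C (1 + ω(Disc K)) ≤ C' log |Disc K| / log log |Disc K|`, so that
   `R_{E/K} ≥ exp (- C log |Disc K| / log log |Disc K|)`. For the rank, this is the bound that is known for all
   `K` if one assumes Q1 for `E/K`, the continuation and the functional equation of the `L`-function and the
   Riemann hypothesis for it. Together they are the two facts about the arithmetic side of the formula
   that are used in the derivation of `#Ш ≪ |Disc K| ^ (1/2 + ε)`.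

Proof. Let `d` independent points of `E(K)` have height `≤ B`. A small combination `Q` of them has the property
that multiples of all of them are defined over the field `F = ℚ(Q)`; so `d ≤ rk E(F)`, and
`log |Disc F| ≪ 1 + B`. If `d > ρ`, the field `F` is not a proper subfield, and `log |Disc K| ≪ B`. By a
2-descent over `F(E[2])`, `rk E(F) ≪ 1 + log |Disc F|`, with the trivial
bound for the class group; and for towers of quadratic extensions the 2-rank of the class group is bounded by
genus theory in each step of the tower, so that `rk E(F) ≪ 1 + ω(Disc F) ≪ B / log B`. Hence the `i`-th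
minimum of the lattice `E(K)` is `≫ i`, and `≫ max (i, log |Disc K|)` for `i > ρ`, and `≫ i log i` in the
third part, and the bounds follow from
an inequality for lattices (a form of the second theorem of Minkowski).
-/

set_option autoImplicit false

open NumberField Filter Topology Classical

namespace Pool.Agent.Results.MP_f50388_nt.RankAndRegulator

variable {a b : ℤ} {K : Type} [Field K]

/-- The curve `y² = x³ + a x + b` over the field `K`, for integers `a`, `b`. -/
def curve (a b : ℤ) (K : Type) [Field K] : WeierstrassCurve K :=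
  { a₁ := 0, a₂ := 0, a₃ := 0, a₄ := a, a₆ := b }

/-- The group `E(K)` of the points of `y² = x³ + a x + b` with coordinates in `K`. -/
abbrev Points (a b : ℤ) (K : Type) [Field K] : Type := (curve a b K).toAffine.Point

/-- The rank of `E(K)`. -/
noncomputable def rank (a b : ℤ) (K : Type) [Field K] : ℕ := Module.finrank ℤ (Points a b K)

/-- The height `h_K(x(P)) = ∑_v n_v log max (1, |x(P)|_v)` (Mathlib's logarithmic height, relative to `K`), and
`0` for the point at infinity. -/
noncomputable def height [NumberField K] : Points a b K → ℝ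
  | .zero => 0
  | .some x _ _ => Height.logHeight₁ x

/-- The canonical height `lim 4^{-n} h_K(x(2^n P))`. -/
noncomputable def canHeight [NumberField K] (P : Points a b K) : ℝ :=
  limUnder atTop fun n : ℕ => height ((2 ^ n : ℕ) • P) / 4 ^ n

/-- `⟨P, Q⟩ = (ĥ(P + Q) - ĥ(P) - ĥ(Q)) / 2` -/
noncomputable def pairing [NumberField K] (P Q : Points a b K) : ℝ :=
  (canHeight (P + Q) - canHeight P - canHeight Q) / 2

/-- `g` is a basis of `E(K)` modulo torsion. -/
def IsBasis {r : ℕ} (g : Fin r → Points a b K) : Prop :=
  ∀ P : Points a b K, ∃! n : Fin r → ℤ, IsOfFinAddOrder (P - ∑ i, n i • g i)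

/-- The regulator `det (⟨g_i, g_j⟩)`. -/
noncomputable def Reg [NumberField K] {r : ℕ} (g : Fin r → Points a b K) : ℝ :=
  (Matrix.of fun i j => pairing (g i) (g j)).det

/-! ### Translation -/

open Pool.Agent.TH942 Pool.Agent.TH910.LS Pool.Agent.H71.RD Pool.Agent.H71.RT Pool.Agent.H71.RM

lemma height_eq [NumberField K] (P : Points a b K) :
    height P = sht (a := (a : K)) (b := (b : K)) P := by
  refine Eq.trans ?_ (sht_eq_xc (a := (a : K)) (b := (b : K)) P).symm
  cases P with
  | zero =>
    change 0 = Height.logHeight₁ (0 : K)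
    rw [Height.logHeight₁_zero]
  | some x y h => rfl

lemma canHeight_eq [NumberField K] (P : Points a b K) :
    canHeight P = chat (a := (a : K)) (b := (b : K)) P := by
  unfold canHeight chat
  simp only [height_eq]
  rfl

lemma Reg_eq [NumberField K] {r : ℕ} (g : Fin r → Points a b K) :
    Reg g = (gram (chat (a := (a : K)) (b := (b : K))) g).det := by
  unfold Reg gram pairing
  simp only [canHeight_eq]
  rfl

/-- **The rank and the regulator of `E/K`.** -/
theorem result (a b : ℤ) (hΔ : 4 * a ^ 3 + 27 * b ^ 2 ≠ 0) (n : ℕ) :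
    ∃ C c : ℝ, 0 < C ∧ 0 < c ∧
    -- 1. every number field of degree `n`
    (∀ (K : Type) [Field K] [NumberField K], Module.finrank ℚ K = n →
      (∃ (r : ℕ) (g : Fin r → Points a b K), IsBasis g) ∧
      ∀ (r : ℕ) (g : Fin r → Points a b K), IsBasis g →
        r = rank a b K ∧
        (r : ℝ) ≤ C * (1 + Real.log |(discr K : ℝ)|) ∧
        c ^ r ≤ Reg g ∧
        (Real.exp 1 * |(discr K : ℝ)|) ^ (-C) ≤ Reg g ∧
        ∀ ρ : ℕ, (∀ k : IntermediateField ℚ K, k ≠ ⊤ → rank a b k ≤ ρ) →
          c ^ r * ∏ i ∈ Finset.Ioc ρ r, max 1 (Real.log |(discr K : ℝ)| / i) ≤ Reg g) ∧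
    -- 2. finiteness
    (∀ (r : ℕ) (B : ℝ), 0 < r → {K : {F : IntermediateField ℚ ℂ // FiniteDimensional ℚ F} |
      haveI : NumberField K := { to_charZero := inferInstance, to_finiteDimensional := K.2 }
      Module.finrank ℚ K = n ∧ (∀ k : IntermediateField ℚ K, k ≠ ⊤ → rank a b k < r) ∧
      ∃ g : Fin r → Points a b K, IsBasis g ∧ Reg g ≤ B}.Finite) ∧
    -- 3. the subfields of the Galois extensions of degree a power of two
    (∀ (K G : Type) [Field K] [NumberField K] [Field G] [NumberField G] [Algebra K G] [IsGalois ℚ G]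
      (s : ℕ), Module.finrank ℚ G = 2 ^ s → Module.finrank ℚ K = n →
      ∀ (r : ℕ) (g : Fin r → Points a b K), IsBasis g →
        (r : ℝ) ≤ C * (1 + (discr K).natAbs.primeFactors.card) ∧
        (c * Real.log (1 + r)) ^ r ≤ Reg g ∧
        (16 ≤ |discr K| →
          (r : ℝ) ≤ C * Real.log |(discr K : ℝ)| / Real.log (Real.log |(discr K : ℝ)|) ∧
          Real.exp (-(C * Real.log |(discr K : ℝ)| / Real.log (Real.log |(discr K : ℝ)|))) ≤
            Reg g)) := by
  obtain ⟨Cr, hCr0, hCr⟩ := rank_disc a b hΔ n
  obtain ⟨cg, hcg0, hcg1, hcg⟩ := reg_gen a b hΔ n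
  obtain ⟨Ct, hCt⟩ := rank_tower a b hΔ n
  obtain ⟨ct, hct0, hct⟩ := reg_tower a b hΔ n
  obtain ⟨cm, hcm0, hcm⟩ := reg_minima a b hΔ n
  set l : ℝ := -Real.log cg with hl
  have hl0 : 0 ≤ l := by
    rw [hl]
    have := Real.log_nonpos hcg0.le hcg1
    linarith
  have hCt0 : (0 : ℝ) ≤ Ct := by positivity
  set C : ℝ := Cr + l * Cr + 9 * Ct + 9 * l * Ct + 1 with hC
  have h0 : 0 ≤ l * Cr := by positivity
  have h0' : 0 ≤ l * Ct := by positivity
  have hC0 : 0 < C := by rw [hC]; linarith
  have hrk : ∀ (K : Type) [Field K] [NumberField K] (r : ℕ) (g : Fin r → Points a b K),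
      IsBasis g → r = rank a b K := by
    intro K _ _ r g hg
    have := card_basis (A := SPt (a : K) (b : K)) hg
    rw [Fintype.card_fin] at this
    exact this.symm
  have hpow : ∀ r : ℕ, cg ^ r = Real.exp (-(l * r)) := by
    intro r
    rw [hl, neg_mul, neg_neg, mul_comm, Real.exp_nat_mul, Real.exp_log hcg0]
  have hdisc : ∀ (K : Type) [Field K] [NumberField K], (1 : ℝ) ≤ |(discr K : ℝ)| := by
    intro K _ _
    have h1 : (1 : ℤ) ≤ |discr K| := Int.one_le_abs (discr_ne_zero K)
    have h2 : ((1 : ℤ) : ℝ) ≤ ((|discr K| : ℤ) : ℝ) := by exact_mod_cast h1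
    push_cast at h2
    exact h2
  set c : ℝ := min (min cg ct) cm with hc
  have hc0 : 0 < c := lt_min (lt_min hcg0 hct0) hcm0
  have hccg : c ≤ cg := (min_le_left _ _).trans (min_le_left _ _)
  have hcct : c ≤ ct := (min_le_left _ _).trans (min_le_right _ _)
  have hccm : c ≤ cm := min_le_right _ _
  have hmin : ∀ (K : Type) [Field K] [NumberField K], Module.finrank ℚ K = n →
      ∀ (r : ℕ) (g : Fin r → Points a b K), IsBasis g →
      ∀ ρ : ℕ, (∀ k : IntermediateField ℚ K, k ≠ ⊤ → rank a b k ≤ ρ) →
        c ^ r * ∏ i ∈ Finset.Ioc ρ r, max 1 (Real.log |(discr K : ℝ)| / i) ≤ Reg g := by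
    intro K _ _ hn r g hg ρ hρ
    rw [Reg_eq]
    refine le_trans ?_ (hcm K hn r g hg ρ ?_)
    · apply mul_le_mul_of_nonneg_right (pow_le_pow_left₀ hc0.le hccm r)
      exact Finset.prod_nonneg fun i _ => le_max_of_le_left zero_le_one
    · intro k inst hk
      obtain rfl : inst = fun x y => Classical.propDecidable (x = y) := Subsingleton.elim _ _
      exact hρ k hk
  refine ⟨C, c, hC0, hc0, ?_, ?_, ?_⟩
  · intro K _ _ hn
    have hD' : 4 * (a : K) ^ 3 + 27 * (b : K) ^ 2 ≠ 0 := by exact_mod_cast hΔ
    refine ⟨exists_basis (sfg hD'), fun r g hg => ?_⟩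
    have h1 := hrk K r g hg
    have h2 : (r : ℝ) ≤ Cr * (1 + Real.log |(discr K : ℝ)|) := by
      rw [h1]
      exact hCr K hn
    have h3 : cg ^ r ≤ Reg g := by
      rw [Reg_eq]
      exact hcg K hn r g hg
    have hlog : 0 ≤ Real.log |(discr K : ℝ)| := Real.log_nonneg (hdisc K)
    refine ⟨h1, h2.trans ?_, le_trans ?_ h3, le_trans ?_ h3, hmin K hn r g hg⟩
    · apply mul_le_mul_of_nonneg_right _ (by linarith)
      rw [hC]
      linarith
    · exact pow_le_pow_left₀ hc0.le hccg r
    · have hd0 : (0 : ℝ) < |(discr K : ℝ)| := lt_of_lt_of_le one_pos (hdisc K)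
      rw [hpow, Real.rpow_def_of_pos (by positivity), Real.log_mul (Real.exp_pos 1).ne' hd0.ne',
        Real.log_exp]
      apply Real.exp_le_exp.2
      have h4 : l * r ≤ l * (Cr * (1 + Real.log |(discr K : ℝ)|)) := by gcongr
      have h5 : l * Cr ≤ C := by
        rw [hC]
        linarith
      nlinarith
  · intro r B hr
    set N : ℕ := ⌈Real.exp (r * (B / c ^ r))⌉₊ with hN
    refine (NumberField.finite_of_discr_bdd ℂ N).subset ?_
    rintro K ⟨hn, hk, g, hg, hB⟩
    simp only [Set.mem_ofPred_eq]
    have : NumberField K := { to_charZero := inferInstance, to_finiteDimensional := K.2 }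
    have h2 := hmin K hn r g hg (r - 1) (fun k hk' => Nat.le_sub_one_of_lt (hk k hk'))
    have h3 : Finset.Ioc (r - 1) r = {r} := by
      ext i
      rw [Finset.mem_Ioc, Finset.mem_singleton]
      omega
    rw [h3, Finset.prod_singleton] at h2
    have hr' : (0 : ℝ) < r := by exact_mod_cast hr
    have hcr : 0 < c ^ r := by positivity
    have h4 : Real.log |(discr K : ℝ)| ≤ r * (B / c ^ r) := by
      have h5 : Real.log |(discr K : ℝ)| / r ≤ B / c ^ r := by
        rw [le_div_iff₀ hcr, mul_comm]
        refine le_trans ?_ (h2.trans hB)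
        exact mul_le_mul_of_nonneg_left (le_max_right _ _) hcr.le
      rwa [div_le_iff₀ hr', mul_comm] at h5
    have h5 : (0 : ℝ) < |(discr K : ℝ)| := by
      rw [abs_pos]
      exact_mod_cast NumberField.discr_ne_zero K
    rw [Real.log_le_iff_le_exp h5] at h4
    have h6 : |(discr K : ℝ)| ≤ (N : ℝ) := h4.trans (Nat.le_ceil _)
    exact_mod_cast h6
  · intro K G _ _ _ _ _ _ s hs hn r g hg
    have h1 := hrk K r g hg
    have h2 : (r : ℝ) ≤ Ct * (1 + (discr K).natAbs.primeFactors.card) := by
      rw [h1]
      exact_mod_cast hCt K G s hs hn.le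
    have h3 : cg ^ r ≤ Reg g := by
      rw [Reg_eq]
      exact hcg K hn r g hg
    have h4 : (ct * Real.log (1 + r)) ^ r ≤ Reg g := by
      rw [Reg_eq]
      exact hct K G s hs hn r g hg
    have hlogr : 0 ≤ Real.log (1 + r) := Real.log_nonneg (by
      have : (0 : ℝ) ≤ r := by positivity
      linarith)
    refine ⟨h2.trans ?_, le_trans ?_ h4, fun h16 => ?_⟩
    · apply mul_le_mul_of_nonneg_right _ (by positivity)
      rw [hC]
      linarith
    · apply pow_le_pow_left₀ (by positivity)
      exact mul_le_mul_of_nonneg_right hcct hlogr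
    · set Λ := Real.log |(discr K : ℝ)| with hΛ
      have h16' : (16 : ℝ) ≤ |(discr K : ℝ)| := by
        have h2 : ((16 : ℤ) : ℝ) ≤ ((|discr K| : ℤ) : ℝ) := by exact_mod_cast h16
        push_cast at h2
        exact h2
      have hΛ1 : 1 < Λ := by
        have e1 : Real.log 16 ≤ Λ := Real.log_le_log (by norm_num) h16'
        have e2 : Real.log 16 = 4 * Real.log 2 := by
          rw [show (16 : ℝ) = 2 ^ 4 by norm_num, Real.log_pow]
          norm_num
        have := Real.log_two_gt_d9
        linarith
      have hloglog : 0 < Real.log Λ := Real.log_pos hΛ1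
      have hD0 : (discr K).natAbs ≠ 0 := Int.natAbs_ne_zero.2 (discr_ne_zero K)
      have h5 := omega_le hD0 hΛ1.le (by rw [Nat.cast_natAbs, Int.cast_abs])
      set w := (discr K).natAbs.primeFactors.card with hw
      have hΛ0 : 0 < Λ := by linarith
      have h6 : (1 + w : ℝ) ≤ 9 * (Λ / Real.log Λ) := by
        rw [← mul_div_assoc, le_div_iff₀ hloglog]
        have : (0 : ℝ) ≤ w := by positivity
        nlinarith
      have hq : 0 ≤ Λ / Real.log Λ := by positivity
      have h7 : (r : ℝ) ≤ 9 * Ct * (Λ / Real.log Λ) := by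
        calc (r : ℝ) ≤ Ct * (1 + w) := h2
          _ ≤ Ct * (9 * (Λ / Real.log Λ)) := by gcongr
          _ = _ := by ring
      rw [mul_div_assoc]
      refine ⟨h7.trans ?_, le_trans ?_ h3⟩
      · apply mul_le_mul_of_nonneg_right _ hq
        rw [hC]
        linarith
      · rw [hpow]
        apply Real.exp_le_exp.2
        have h8 : l * r ≤ l * (9 * Ct * (Λ / Real.log Λ)) := by gcongr
        have h9 : 9 * l * Ct ≤ C := by
          rw [hC]
          linarith
        nlinarith

end Pool.Agent.Results.MP_f50388_nt.RankAndRegulator
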