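import Pool.Agent.H98.W.Fin2
import Pool.Agent.H98.Y.Twr

/-!
# Curves of rank one over the rational numbers and of rank two over number fields of unbounded degree: the
rank, the order of vanishing, the Tate-Shafarevich group, and the 2-part of the refined formula of Birch and
Swinnerton-Dyer

Let `q ≡ 2 (mod 3)` be an odd prime number and `d = ± q ≡ 1 (mod 4)`; let `E_d` be the curve
`y² = x³ + 16 d³` over the rational numbers (the quadratic twist by `d` of `y² + y = x³`; a global minimal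
equation is `y² + y = x³ + (d³ - 1) / 4`).  The root number of `E_d` is `-1`.  Let `M = ℚ(√-3)`, let `L/M` be
ANY Galois extension whose degree is a power of two, in which the primes of `M` do not ramify that are not
above three and modulo which `2` is a cube, and let `M ⊆ K ⊆ L` be ANY intermediate field in which `q` is
inert (`K = M` is one of them).  There are many such fields: let `n ≥ 1`; for infinitely many primes `v` of `M`, and for
at least a third of all the primes `v` with `N(v) ≡ 1` modulo `2^(n+1)` (lower density), there is such a field `K = L`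
which is cyclic of degree `2^n` over `M`, totally ramified at `v` and unramified at the other primes (last part of the
theorem; by class field theory and Chebotarev's theorem).

* The rank `ρ` of `E_d(ℚ)` is at most one, and the order of vanishing `m` of the L-series of `E_d/ℚ` at `1` is
  odd.  The rank of `E_d(K)` and the order of vanishing of the L-series of `E_d/K` at `1` are `2 ρ` and `2 m`,
  for all the fields `K`.  So the rank part of the conjecture over `ℚ` and over every one of the fields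
  `K` are equivalent.  If `d = 5` then `m = ρ = 1` (the curve `y² = x³ + 2000`, with the point `(20, 100)`).
* If `ρ = 1`, then the 2-primary parts of the Tate-Shafarevich groups of `E_d/ℚ` and of `E_d/K` are
  TRIVIAL, for all the fields `K`.
* If `ρ = 1`, let `x(F)` be the quotient of the leading coefficient of the L-series of `E_d/F` at `1` by
  `#Ш(E_d/F)[2^∞] R Ω C / (√|Disc F| #E_d(F)_tors²)`.  Then `x(K) = x(ℚ)² u` where `u` is an algebraic
  number which is a unit at all the primes above two.  So the 2-part of the refined formula over `ℚ` and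
  over every one of the fields `K` are equivalent.

The proof of the second part is a 2-descent in the field of the cube root of two.  For the third, the
L-values of `E_d` over the steps of the tower are compared modulo high powers of the primes above two
(Shintani's unfolding for Eisenstein-Kronecker series in several variables), and the L-series over `M` is
the square of that over `ℚ`; the regulators are compared with the descent of the divisibility by two (the
index of `E_d(F)` in the lattice of `E_d(K)` is `2^j` times an odd number, with the exact `j`); the Tamagawa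
number at `q` is two over `ℚ` and four over `K`.
-/

set_option autoImplicit false

open NumberField IsDedekindDomain WeierstrassCurve MeasureTheory Filter Topology
open scoped Classical

namespace Pool.Agent.Results.MP_f50388_nt.RankTwoTwoPart

/-- above the prime numbers other than three, only primes modulo which `2` is not a cube ramify in
`L/M`: if `σ ≠ 1` lies in the inertia group of the prime `w` of `L`, and `w` does not divide three, then
`2` is not a cube modulo the prime of `M` below `w` -/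
def GoodRam (M L : Type) [Field M] [NumberField M] [Field L] [NumberField L] [Algebra M L] : Prop :=
  ∀ (w : HeightOneSpectrum (𝓞 L)) (σ : Gal(L/M)), (3 : 𝓞 L) ∉ w.asIdeal →
    (∀ x : 𝓞 L, σ • x - x ∈ w.asIdeal) → σ ≠ 1 → ∀ α : 𝓞 M, α ^ 3 - 2 ∉ w.asIdeal.under (𝓞 M)

/-- the curve `y² = x³ + 16 d³` over the rational numbers -/
def E (d : ℤ) : WeierstrassCurve ℚ := ⟨0, 0, 0, 0, 16 * (d : ℚ) ^ 3⟩

/-- its global minimal equation `y² + y = x³ + (d³ - 1) / 4`, of discriminant `-27 d⁶`, for square free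
`d ≡ 1 (mod 4)` -/
noncomputable def Emin (d : ℤ) : WeierstrassCurve ℚ := ⟨0, 0, 1, 0, ((d : ℚ) ^ 3 - 1) / 4⟩

/-- the curve `E` over the number field `K` -/
noncomputable def overK (E : WeierstrassCurve ℚ) (K : Type) [Field K] [NumberField K] :
    WeierstrassCurve K := E.map (algebraMap ℚ K)

section
variable {K : Type} [Field K] [NumberField K]

/-- `W(K)` is finitely generated of rank `r` -/
def HasRank (W : WeierstrassCurve K) (r : ℕ) : Prop :=
  Module.Finite ℤ W.toAffine.Point ∧ Module.finrank ℤ W.toAffine.Point = r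

/-- the L-series of `W/K` continues analytically from `Re s > 3/2` to a connected open set containing
`1`, where its order of vanishing is `r` and its leading coefficient is `l` -/
def HasLead (W : WeierstrassCurve K) (r : ℕ) (l : ℂ) : Prop :=
  ∃ (U : Set ℂ) (Φ : ℂ → ℂ),
    IsOpen U ∧ IsConnected U ∧ {s : ℂ | (3 / 2 : ℝ) < s.re} ⊆ U ∧ (1 : ℂ) ∈ U ∧
    AnalyticOnNhd ℂ Φ U ∧ (∀ s : ℂ, (3 / 2 : ℝ) < s.re → Φ s = W.LSeries s) ∧
    l ≠ 0 ∧ Tendsto (fun s : ℂ => Φ s / (s - 1) ^ r) (𝓝[≠] 1) (𝓝 l)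

/-- the Tate-Shafarevich group of `W/K`: continuous cocycles of the absolute Galois group of `K` that
are locally trivial at all the places, modulo coboundaries -/
abbrev Sha (W : WeierstrassCurve K) : Type := Pool.Agent.TH841.NF.D.Sha W

/-- the 2-primary part of the Tate-Shafarevich group over `K` -/
def Sha2 (W : WeierstrassCurve K) : Set (Sha W) := {x | ∃ n : ℕ, 2 ^ n • x = 0}

/-- the height `h_K(x(P)) = ∑_v n_v log max (1, |x(P)|_v)` (the logarithmic height of Mathlib, relative to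
`K`), and `0` for the point at infinity -/
noncomputable def height {W : WeierstrassCurve K} : W.toAffine.Point → ℝ
  | .zero => 0
  | .some x _ _ => Height.logHeight₁ x

/-- the canonical height `lim 4^{-n} h_K(x(2^n P))` -/
noncomputable def canHeight {W : WeierstrassCurve K} (P : W.toAffine.Point) : ℝ :=
  limUnder atTop fun n : ℕ => height ((2 ^ n : ℕ) • P) / 4 ^ n

/-- `⟨P, Q⟩ = (ĥ(P + Q) - ĥ(P) - ĥ(Q)) / 2` -/
noncomputable def pairing {W : WeierstrassCurve K} (P Q : W.toAffine.Point) : ℝ :=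
  (canHeight (P + Q) - canHeight P - canHeight Q) / 2

/-- `g` is a basis of `W(K)` modulo torsion -/
def IsBasis {W : WeierstrassCurve K} {r : ℕ} (g : Fin r → W.toAffine.Point) : Prop :=
  ∀ P : W.toAffine.Point, ∃! n : Fin r → ℤ, IsOfFinAddOrder (P - ∑ i, n i • g i)

/-- the regulator `det (⟨g_i, g_j⟩)`, relative to `K` -/
noncomputable def Reg {W : WeierstrassCurve K} {r : ℕ} (g : Fin r → W.toAffine.Point) : ℝ :=
  (Matrix.of fun i j => pairing (g i) (g j)).det

/-- a minimal equation of `W` over the completion `K_v` -/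
noncomputable def minEq (W : WeierstrassCurve K) (v : HeightOneSpectrum (𝓞 K)) :
    WeierstrassCurve (v.adicCompletion K) :=
  (W.baseChange (v.adicCompletion K)).minimal (v.adicCompletionIntegers K)

/-- `W⁰(K_v)`, the group of the points over the completion `K_v` with nonsingular reduction, for an
equation `W` with integral coefficients in `K_v`: it is generated by the point at infinity and the points
`(x, y)` where one of the partial derivatives `2 y + a₁ x + a₃` and `3 x² + 2 a₂ x + a₄ - a₁ y` does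
not lie in the maximal ideal (this is always so if `x` is not integral) -/
noncomputable def nonsing {v : HeightOneSpectrum (𝓞 K)} (W : WeierstrassCurve (v.adicCompletion K)) :
    AddSubgroup W.toAffine.Point :=
  AddSubgroup.closure {P | ∀ x y h, P = Affine.Point.some x y h →
    1 ≤ Valued.v (2 * y + W.a₁ * x + W.a₃) ∨
    1 ≤ Valued.v (3 * x ^ 2 + 2 * W.a₂ * x + W.a₄ - W.a₁ * y)}

/-- the Tamagawa number `c_v = [W(K_v) : W⁰(K_v)]`, for a minimal equation over `K_v` -/
noncomputable def c (W : WeierstrassCurve K) (v : HeightOneSpectrum (𝓞 K)) : ℕ :=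
  (nonsing (minEq W v)).index

/-- the normalised absolute value of `K_v` -/
noncomputable def absv (v : HeightOneSpectrum (𝓞 K)) (x : v.adicCompletion K) : ℝ :=
  if x = 0 then 0 else (Ideal.absNorm v.asIdeal : ℝ) ^ WithZero.log (Valued.v x)

/-- `C_{W/K} = ∏ c_v |Δ_{W,v,min} / Δ_W|_v ^ (1/12)`, the product over all the finite places -/
noncomputable def C (W : WeierstrassCurve K) : ℝ :=
  ∏ᶠ v : HeightOneSpectrum (𝓞 K), (c W v : ℝ) *
    absv v ((minEq W v).Δ / (W.baseChange (v.adicCompletion K)).Δ) ^ (1 / 12 : ℝ)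

end

/-- `4 x³ + b₂ x² + 2 b₄ x + b₆ = (2 y + a₁ x + a₃)²` -/
def cubic {R : Type} [CommRing R] (W : WeierstrassCurve R) (x : R) : R :=
  4 * x ^ 3 + W.b₂ * x ^ 2 + 2 * W.b₄ * x + W.b₆

/-- `Ω₊ = ∫_{W(ℝ)} |ω|` with `ω = dx / (2 y + a₁ x + a₃)`, as an integral over `x`: two real points lie
over each `x` with `cubic x > 0` -/
noncomputable def realPeriod (W : WeierstrassCurve ℝ) : ℝ :=
  2 * ∫ x in {x : ℝ | 0 < cubic W x}, 1 / √(cubic W x)

/-- `Ω₋ = 2 ∫_{W(ℂ)} |ω ∧ ω̄|`, where `|ω ∧ ω̄| = du dv` in a local parameter `z = u + i v` with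
`dz = ω`, as an integral over `x`: two points lie over a general `x`, and `|ω ∧ ω̄|` is the area
element of the plane of `x` divided by `|cubic x|` -/
noncomputable def complexPeriod (W : WeierstrassCurve ℂ) : ℝ := 2 * (2 * ∫ x : ℂ, 1 / ‖cubic W x‖)

/-- `Ω_{W/K} = Ω₊ ^ r₁ Ω₋ ^ r₂`, for an equation over the rational numbers -/
noncomputable def Omega (K : Type) [Field K] [NumberField K] (W : WeierstrassCurve ℚ) : ℝ :=
  realPeriod (W.map (algebraMap ℚ ℝ)) ^ InfinitePlace.nrRealPlaces K *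
    complexPeriod (W.map (algebraMap ℚ ℂ)) ^ InfinitePlace.nrComplexPlaces K

/-- the right side of the formula for the curve `W/K` with the global minimal equation `V` over the
rational numbers and the basis `g` of `W(K)` modulo torsion, with the 2-primary part of the
Tate-Shafarevich group: `#Ш(W/K)[2^∞] R Ω C / (√|Disc K| #W(K)_tors²)` -/
noncomputable def rhs {K : Type} [Field K] [NumberField K] (W : WeierstrassCurve K)
    (V : WeierstrassCurve ℚ) {r : ℕ} (g : Fin r → W.toAffine.Point) : ℝ :=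
  (Nat.card (Sha2 W) : ℝ) * Reg g * Omega K V * C (overK V K) /
    (√|(discr K : ℝ)| * (Nat.card (AddCommGroup.torsion W.toAffine.Point) : ℝ) ^ 2)

/-- `z` is an algebraic number which is a unit at all the primes above two -/
def Unit2 (z : ℂ) : Prop := ∃ s : ℤ, Odd s ∧ IsIntegral ℤ (s * z) ∧ IsIntegral ℤ (s * z⁻¹)

/-! ### Translation -/

open Pool.Agent.K7.H70.TW (Ed)
open Pool.Agent.TH942 Pool.Agent.TH910.LS
open Pool.Agent.H98.W (ch)

section
variable {K : Type} [Field K] [NumberField K] {d : ℤ}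

lemma height_eq (P : (Ed (d : K)).toAffine.Point) :
    height P = sht (a := (0 : K)) (b := 16 * (d : K) ^ 3) P := by
  cases P with
  | zero => exact (sht_zero (a := (0 : K)) (b := 16 * (d : K) ^ 3)).symm
  | some x y h => exact (Pool.Agent.H98.W.sht_some (a := (0 : K)) (b := 16 * (d : K) ^ 3) h).symm

lemma canHeight_eq (P : (Ed (d : K)).toAffine.Point) : canHeight P = ch d K P := by
  unfold canHeight ch chat
  simp only [height_eq]
  rfl

lemma Reg_eq {r : ℕ} (g : Fin r → (Ed (d : K)).toAffine.Point) : Reg g = (gram (ch d K) g).det := by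
  unfold Reg gram pairing
  simp only [canHeight_eq]

lemma C_eq (W : WeierstrassCurve K) : C W = Pool.Agent.K7.H73.L3.CE W := rfl

lemma Omega_eq (V : WeierstrassCurve ℚ) : Omega K V = Pool.Agent.K7.H73.T2.Om (overK V K) :=
  (Pool.Agent.K7.H73.T2.Om_rat V).symm

lemma Emin_eq : ∃ C' : VariableChange K, C' • overK (Emin d) K = Ed (d : K) := by
  refine ⟨⟨⟨2⁻¹, 2, by norm_num, by norm_num⟩, 0, 0, -2⁻¹⟩, ?_⟩
  have h2 : (2 : K) ≠ 0 := two_ne_zero
  unfold overK Emin Ed
  rw [WeierstrassCurve.variableChange_def]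
  ext
  · simp
  · simp
  · simp
  · simp
  · simp
    ring

/-- the right side of the formula and its value at a prime above two -/
lemma rhs_val (hfg : AddGroup.FG (Ed (d : K)).toAffine.Point)
    (htor : ∀ P : (Ed (d : K)).toAffine.Point, P + P = 0 → P = 0) (hU : Pool.Agent.K7.H56.Unr2 K)
    (hSha : Sha2 (Ed (d : K)) = {0}) (hO : 0 < Pool.Agent.K7.H73.T2.Om (overK (Emin d) K))
    (hCE : 0 < Pool.Agent.K7.H73.L3.CE (overK (Emin d) K)) {r : ℕ}
    {g : Fin r → (Ed (d : K)).toAffine.Point} (hg : 0 < (gram (ch d K) g).det) :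
    0 < rhs (Ed (d : K)) (Emin d) g ∧
      ∀ (Γ : Type) [LinearOrderedCommGroupWithZero Γ] (v : Valuation ℂ Γ), v 2 < 1 →
        v ((rhs (Ed (d : K)) (Emin d) g : ℝ) : ℂ) = v (((gram (ch d K) g).det : ℝ) : ℂ) *
          (v ((Pool.Agent.K7.H73.T2.Om (overK (Emin d) K) : ℝ) : ℂ) *
            v ((Pool.Agent.K7.H73.L3.CE (overK (Emin d) K) : ℝ) : ℂ)) := by
  have hcard : Nat.card (Sha2 (Ed (d : K))) = 1 := by
    rw [hSha]
    exact Nat.card_unique
  have hodd := Pool.Agent.H98.W.tor_odd hfg htor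
  have hd0 : 0 < √|(discr K : ℝ)| := Real.sqrt_pos.2 (abs_pos.2 (by
    exact_mod_cast discr_ne_zero K))
  have hdisc := Pool.Agent.K7.H73.GN.odd_discr hU
  have hN0 : (0 : ℝ) < (Nat.card (AddCommGroup.torsion (Ed (d : K)).toAffine.Point) : ℝ) := by
    exact_mod_cast hodd.pos
  refine ⟨?_, fun Γ _ v hv2 => ?_⟩
  · unfold rhs
    rw [hcard, Reg_eq, Omega_eq, C_eq]
    positivity
  have h4 : v ((Real.sqrt |(discr K : ℝ)| : ℝ) : ℂ) = 1 := Pool.Agent.Y696.v_sqrtD hv2 hdisc
  have h5 : v ((Nat.card (AddCommGroup.torsion (Ed (d : K)).toAffine.Point) : ℕ) : ℂ) = 1 := by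
    have := Pool.Agent.Y688.v_odd hv2
      (n := ((Nat.card (AddCommGroup.torsion (Ed (d : K)).toAffine.Point) : ℕ) : ℤ))
      (by exact_mod_cast hodd)
    exact_mod_cast this
  have h3 : ((rhs (Ed (d : K)) (Emin d) g : ℝ) : ℂ) =
      (((gram (ch d K) g).det : ℝ) : ℂ) * ((Pool.Agent.K7.H73.T2.Om (overK (Emin d) K) : ℝ) : ℂ) *
        ((Pool.Agent.K7.H73.L3.CE (overK (Emin d) K) : ℝ) : ℂ) /
      (((√|(discr K : ℝ)| : ℝ) : ℂ) *
        ((Nat.card (AddCommGroup.torsion (Ed (d : K)).toAffine.Point) : ℕ) : ℂ) ^ 2) := by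
    unfold rhs
    rw [hcard, Reg_eq, Omega_eq, C_eq]
    push_cast
    rw [one_mul]
  rw [h3, map_div₀, map_mul, map_mul, map_mul, map_pow, h4, h5, one_pow, mul_one, div_one,
    mul_assoc]

lemma sha_eq (h : ∀ (x : Sha (Ed (d : K))) (n : ℕ), 2 ^ n • x = 0 → x = 0) :
    Sha2 (Ed (d : K)) = {0} := by
  apply Set.eq_singleton_iff_unique_mem.2
  refine ⟨⟨0, smul_zero _⟩, ?_⟩
  rintro x ⟨n, hx⟩
  exact h x n hx

omit [NumberField K] in
lemma hasRank {r : ℕ} (hfg : AddGroup.FG (Ed (d : K)).toAffine.Point)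
    (h : Module.finrank ℤ (Ed (d : K)).toAffine.Point = r) : HasRank (Ed (d : K)) r :=
  ⟨Module.Finite.iff_addGroup_fg.2 hfg, h⟩

/-- the comparison of two fields -/
lemma compare {Q : Type} [Field Q] [NumberField Q] {B : ℝ} {cc l Ω : ℂ} (hc0 : cc ≠ 0)
    (q2 : (starRingEnd ℂ) cc = cc) (hfg0 : AddGroup.FG (Ed (d : Q)).toAffine.Point)
    (htor0 : ∀ P : (Ed (d : Q)).toAffine.Point, P + P = 0 → P = 0)
    (hU0 : Pool.Agent.K7.H56.Unr2 Q) (hSha0 : Sha2 (Ed (d : Q)) = {0})
    (t1 : 0 < Pool.Agent.K7.H73.T2.Om (overK (Emin d) Q))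
    (t2 : 0 < Pool.Agent.K7.H73.L3.CE (overK (Emin d) Q))
    (t3 : ∀ (Γ : Type) [LinearOrderedCommGroupWithZero Γ] (v : Valuation ℂ Γ), v 2 < 1 →
      v ((Pool.Agent.K7.H73.T2.Om (overK (Emin d) Q) : ℝ) : ℂ) *
        v ((Pool.Agent.K7.H73.L3.CE (overK (Emin d) Q) : ℝ) : ℂ) = v 2 * v Ω)
    (s0 : ∀ u : Fin 1 → (Ed (d : Q)).toAffine.Point, IsBasisModTors u →
      0 < (gram (ch d Q) u).det ∧
        ∃ N : ℤ, Odd N ∧ 3 * (gram (ch d Q) u).det ^ 2 = (N : ℝ) ^ 2 * B)
    (hfg : AddGroup.FG (Ed (d : K)).toAffine.Point)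
    (htor : ∀ P : (Ed (d : K)).toAffine.Point, P + P = 0 → P = 0)
    (hU : Pool.Agent.K7.H56.Unr2 K) (hSha : Sha2 (Ed (d : K)) = {0})
    (o1 : 0 < Pool.Agent.K7.H73.T2.Om (overK (Emin d) K))
    (o2 : 0 < Pool.Agent.K7.H73.L3.CE (overK (Emin d) K))
    (o4 : ∀ b : Fin 2 → (Ed (d : K)).toAffine.Point, IsBasisModTors b →
      0 < (gram (ch d K) b).det ∧
        ∀ (Γ : Type) [LinearOrderedCommGroupWithZero Γ] (v : Valuation ℂ Γ), v 2 < 1 →
          v l * (v ((B : ℝ) : ℂ) * v 4 * v Ω ^ 2) = v (cc * (starRingEnd ℂ) cc) *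
            (v (((gram (ch d K) b).det : ℝ) : ℂ) *
              (v ((Pool.Agent.K7.H73.T2.Om (overK (Emin d) K) : ℝ) : ℂ) *
                v ((Pool.Agent.K7.H73.L3.CE (overK (Emin d) K) : ℝ) : ℂ))))
    {u : Fin 1 → (Ed (d : Q)).toAffine.Point} {g : Fin 2 → (Ed (d : K)).toAffine.Point}
    (hu : IsBasis u) (hg : IsBasis g) :
    0 < rhs (Ed (d : Q)) (Emin d) u ∧ 0 < rhs (Ed (d : K)) (Emin d) g ∧
      Unit2 ((l / rhs (Ed (d : K)) (Emin d) g) / (cc / rhs (Ed (d : Q)) (Emin d) u) ^ 2) := by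
  have hub : IsBasisModTors u := hu
  have hgb : IsBasisModTors g := hg
  obtain ⟨r0, hv⟩ := o4 g hgb
  obtain ⟨s0, N, hN, hNe⟩ := s0 u hub
  obtain ⟨y1, y2⟩ := rhs_val hfg0 htor0 hU0 hSha0 t1 t2 s0
  obtain ⟨z1, z2⟩ := rhs_val hfg htor hU hSha o1 o2 r0
  refine ⟨y1, z1, ?_⟩
  refine Pool.Agent.K7.H73.BS.unit_of_val fun Γ _ v hv2 => ?_
  have e1 := hv Γ v hv2
  have e2 := y2 Γ v hv2
  have e3 := z2 Γ v hv2
  have e4 := t3 Γ v hv2
  rw [e4] at e2
  rw [← e3, q2, map_mul] at e1
  have e5 : v (((gram (ch d Q) u).det : ℝ) : ℂ) ^ 2 = v ((B : ℝ) : ℂ) := by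
    have k1 : ((3 * (gram (ch d Q) u).det ^ 2 : ℝ) : ℂ) = (((N : ℝ) ^ 2 * B : ℝ) : ℂ) :=
      congrArg _ hNe
    push_cast at k1
    have k2 := congrArg v k1
    have k3 : v (3 : ℂ) = 1 := by
      have := Pool.Agent.Y688.v_odd hv2 (n := 3) (by decide)
      exact_mod_cast this
    have k4 : v ((N : ℤ) : ℂ) = 1 := Pool.Agent.Y688.v_odd hv2 hN
    rw [map_mul, map_mul, map_pow, map_pow, k3, k4, one_mul, one_pow, one_mul] at k2
    exact k2
  have hcc : v cc ≠ 0 := (Valuation.ne_zero_iff v).2 hc0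
  have hz : v ((rhs (Ed (d : K)) (Emin d) g : ℝ) : ℂ) ≠ 0 := (Valuation.ne_zero_iff v).2 (by
    exact_mod_cast z1.ne')
  have hy : v ((rhs (Ed (d : Q)) (Emin d) u : ℝ) : ℂ) ≠ 0 := (Valuation.ne_zero_iff v).2 (by
    exact_mod_cast y1.ne')
  have e6 : v l * v ((rhs (Ed (d : Q)) (Emin d) u : ℝ) : ℂ) ^ 2 =
      v cc ^ 2 * v ((rhs (Ed (d : K)) (Emin d) g : ℝ) : ℂ) := by
    have k5 : (4 : ℂ) = 2 * 2 := by norm_num
    have k6 : v (4 : ℂ) = v 2 ^ 2 := by rw [k5, map_mul, pow_two]
    rw [e2, mul_pow, mul_pow, e5, pow_two (v cc), ← e1, k6, mul_assoc]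
  rw [map_div₀, map_div₀, map_pow, map_div₀, div_pow, div_div_div_eq, e6, mul_comm,
    div_self (mul_ne_zero hz (pow_ne_zero 2 hcc))]

end

/-- the primes `v` of `M` with `N(v) ≤ X` and `N(v) ≡ 1` modulo `2 ^ (n + 1)` -/
def Primes (M : Type) [Field M] [NumberField M] (n X : ℕ) : Set (HeightOneSpectrum (𝓞 M)) :=
  {v | Ideal.absNorm v.asIdeal ≤ X ∧ 2 ^ (n + 1) ∣ Ideal.absNorm v.asIdeal - 1}

/-- there is a cyclic extension `K/M` of degree `2 ^ n` with `√-3` in `K`, totally ramified at `v` and unramified at the other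
primes, such that `d` generates a prime ideal in `K` and `K/M` satisfies the condition `GoodRam` -/
def HasField (d : ℤ) (M : Type) [Field M] [NumberField M] (n : ℕ) (v : HeightOneSpectrum (𝓞 M)) : Prop :=
  ∃ (K : Type) (_ : Field K) (_ : NumberField K) (_ : Algebra M K) (_ : IsGalois M K),
    IsCyclic Gal(K/M) ∧ Module.finrank M K = 2 ^ n ∧ GoodRam M K ∧
    (Ideal.span {(d : 𝓞 K)}).IsPrime ∧ (∃ ω : K, ω ^ 2 + ω + 1 = 0) ∧
    (∀ (w : HeightOneSpectrum (𝓞 K)) (σ : Gal(K/M)), (∀ x : 𝓞 K, σ • x - x ∈ w.asIdeal) → σ ≠ 1 →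
      w.asIdeal.under (𝓞 M) = v.asIdeal) ∧
    ∀ w : HeightOneSpectrum (𝓞 K), w.asIdeal.under (𝓞 M) = v.asIdeal →
      ∀ (σ : Gal(K/M)) (x : 𝓞 K), σ • x - x ∈ w.asIdeal

lemma hasField_iff {d : ℤ} {M : Type} [Field M] [NumberField M] {n : ℕ} {v : HeightOneSpectrum (𝓞 M)} :
    Pool.Agent.H98.Y.HasT d M n v ↔ HasField d M n v := Iff.rfl

/-- the number of the fields -/
theorem many {d : ℤ} (hd : Pool.Agent.H98.Q.Dd d) (M : Type) [Field M] [NumberField M]
    [IsCyclotomicExtension {3} ℚ M] (n : ℕ) (hn : n ≠ 0) :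
    (∀ B : ℕ, ∃ v : HeightOneSpectrum (𝓞 M), B < Ideal.absNorm v.asIdeal ∧ HasField d M n v) ∧
      ∀ c : ℝ, c < 1 / 3 → ∀ᶠ X : ℕ in Filter.atTop, (Primes M n X).Finite ∧ 0 < (Primes M n X).ncard ∧
        c * ((Primes M n X).ncard : ℝ) < ({v ∈ Primes M n X | HasField d M n v}.ncard : ℝ) := by
  have h2 : d.natAbs ≠ 2 := by
    have := hd.m4
    omega
  have h3 : 3 ∣ d.natAbs + 1 := by
    have := hd.m3
    omega
  refine ⟨fun B => ?_, fun c hc => ?_⟩
  · obtain ⟨v, h1, -, h2⟩ := Pool.Agent.H98.Y.infinite M hd.pr h2 h3 n hn B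
    exact ⟨v, h1, hasField_iff.1 h2⟩
  · filter_upwards [Pool.Agent.H98.Y.share M hd.pr h2 h3 n hn c hc] with X hX
    refine ⟨Pool.Agent.Q129.LQ.fin_le X _, hX.1, hX.2.trans_le ?_⟩
    rw [show {v ∈ Primes M n X | HasField d M n v} = {v : HeightOneSpectrum (𝓞 M) | Ideal.absNorm v.asIdeal ≤ X ∧
        2 ^ (n + 1) ∣ Ideal.absNorm v.asIdeal - 1 ∧ Pool.Agent.H98.Y.HasT d M n v} from ?_]
    ext v
    simp only [Primes, Set.mem_ofPred_eq, hasField_iff, and_assoc]

/-- **Main theorem.**  Let `d = ± q ≡ 1 (mod 4)` where `q ≡ 2 (mod 3)` is a prime number.  Let `ρ` be the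
rank of `E_d(ℚ)`; then `ρ ≤ 1`.  Let `m` be the order of vanishing at `1`, and `l₀` the leading coefficient, of
the L-series of `E_d/ℚ`; then `m` is odd.  If `d = 5`, then `m = ρ = 1`.  If `ρ = 1`, then the 2-primary part of
the Tate-Shafarevich group of `E_d/ℚ` is trivial.

Let `L` be a Galois extension of `M = ℚ(√-3)` whose degree is a power of two, in which no prime of `M`
ramifies that is not above three and modulo which `2` is a cube.  Let `K ⊆ L` contain `√-3`, such that `q`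
generates a prime ideal of the ring of integers of `K`.  Then `E_d(K)` is finitely generated of rank `2 ρ`,
the order of vanishing of the L-series of `E_d/K` at `1` is `2 m`, and, if `ρ = 1`, then the 2-primary part of
the Tate-Shafarevich group of `E_d/K` is trivial, and, up to a unit at two, the quotient of the leading
coefficient of the L-series by the right side of the formula over `K` is the square of the quotient over
`ℚ`.

Let `n ≥ 1`.  For infinitely many primes `v` of `M` there is such a field `K = L` which is cyclic of degree `2 ^ n` over `M`,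
totally ramified at `v` and unramified at the other primes; and the lower density of these `v` among all the primes with
`N(v) ≡ 1` modulo `2 ^ (n + 1)` is at least `1 / 3`. -/
theorem result : ∀ d : ℤ, d.natAbs.Prime → d.natAbs % 3 = 2 → d % 4 = 1 →
    ∃ (m ρ : ℕ) (l₀ : ℂ), Odd m ∧ ρ ≤ 1 ∧ (d = 5 → m = 1 ∧ ρ = 1) ∧
    HasRank (E d) ρ ∧ HasLead (E d) m l₀ ∧ (ρ = 1 → Sha2 (E d) = {0}) ∧
    (∀ (M L K : Type) [Field M] [NumberField M] [IsCyclotomicExtension {3} ℚ M]
    [Field L] [NumberField L] [Algebra M L] [IsGalois M L] [Field K] [NumberField K] [Algebra K L],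
    (∃ n : ℕ, Module.finrank M L = 2 ^ n) → GoodRam M L → (Ideal.span {(d : 𝓞 K)}).IsPrime →
    (∃ ω : K, ω ^ 2 + ω + 1 = 0) →
      HasRank (overK (E d) K) (2 * ρ) ∧
      ∃ l : ℂ, HasLead (overK (E d) K) (2 * m) l ∧
      (ρ = 1 → Sha2 (overK (E d) K) = {0} ∧
        ∀ (u : Fin 1 → (E d).toAffine.Point) (g : Fin 2 → (overK (E d) K).toAffine.Point),
          IsBasis u → IsBasis g →
            0 < rhs (E d) (Emin d) u ∧ 0 < rhs (overK (E d) K) (Emin d) g ∧
            Unit2 ((l / rhs (overK (E d) K) (Emin d) g) / (l₀ / rhs (E d) (Emin d) u) ^ 2))) ∧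
    ∀ (M : Type) [Field M] [NumberField M] [IsCyclotomicExtension {3} ℚ M] (n : ℕ), n ≠ 0 →
      (∀ B : ℕ, ∃ v : HeightOneSpectrum (𝓞 M), B < Ideal.absNorm v.asIdeal ∧ HasField d M n v) ∧
      ∀ c : ℝ, c < 1 / 3 → ∀ᶠ X : ℕ in Filter.atTop, (Primes M n X).Finite ∧ 0 < (Primes M n X).ncard ∧
        c * ((Primes M n X).ncard : ℝ) < ({v ∈ Primes M n X | HasField d M n v}.ncard : ℝ) := by
  intro d h1 h2 h3
  have hd : Pool.Agent.H98.Q.Dd d := ⟨h1, h2, h3⟩
  obtain ⟨m, cc, hm, hB⟩ := Pool.Agent.H98.W.lead_ex hd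
  have hcyc : IsCyclotomicExtension {3} ℚ (CyclotomicField 3 ℚ) :=
    CyclotomicField.isCyclotomicExtension 3 ℚ
  have hpC : Pool.Agent.H98.Q.Pd d (CyclotomicField 3 ℚ) :=
    Pool.Agent.H98.V.pd_cyc hd (CyclotomicField 3 ℚ)
  have hgC := Pool.Agent.K7.H73.L3.gz3 (CyclotomicField 3 ℚ)
  -- the base field
  obtain ⟨Λ, w, p1, p2, p3⟩ := Pool.Agent.Y696.exists_real
  have hΛ : Pool.Agent.Y696.IsPeriods Λ w := ⟨p1, p2, p3⟩
  obtain ⟨Ω, hCur, -⟩ := Pool.Agent.R431.B.exists_om hΛ.g₂ hΛ.g₃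
  obtain ⟨q1, q2⟩ := Pool.Agent.H98.W.lead_Q hd hB
  have hlow := Pool.Agent.H98.W.low_Q hd (CyclotomicField 3 ℚ)
  obtain ⟨C₀, hC₀⟩ := Emin_eq (K := ℚ) (d := d)
  obtain ⟨hU0, t1, t2, t3⟩ := Pool.Agent.H98.W.per_Q hd hC₀ hΛ hCur
  have hE0 : E d = Ed (d : ℚ) := rfl
  rw [hE0]
  refine ⟨m, if Pool.Agent.H98.R.Tw d (CyclotomicField 3 ℚ) then 0 else 1, cc, hm,
    by split_ifs <;> norm_num, ?_, ?_, q1, ?_, ?_, fun M _ _ _ n hn => many hd M n hn⟩
  · intro h5
    subst h5
    exact ⟨Pool.Agent.H98.W.lead_five hB, if_neg (Pool.Agent.H98.V.tw_five hgC hd hpC)⟩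
  · refine hasRank hlow.fg ?_
    by_cases hT : Pool.Agent.H98.R.Tw d (CyclotomicField 3 ℚ)
    · rw [if_pos hT]
      exact hlow.zero hT
    · rw [if_neg hT]
      exact hlow.one hT
  · intro h
    have hT : ¬ Pool.Agent.H98.R.Tw d (CyclotomicField 3 ℚ) := fun hT => by
      rw [if_pos hT] at h
      exact absurd h zero_ne_one
    exact sha_eq (hlow.sha hT)
  intro M L K _ _ _ _ _ _ _ _ _ _ hn hg h5 ⟨ω, hω⟩
  have hG : Pool.Agent.K7.H56.P.Gd M L := Pool.Agent.K7.H56.P.gd_of fun w hw h3 α hα => by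
    obtain ⟨σ, hσ, hin⟩ := hw
    refine hg w σ (fun h => h3 ?_) hin hσ α hα
    show algebraMap (𝓞 M) (𝓞 L) 3 ∈ w.asIdeal
    rw [map_ofNat]
    exact h
  have hE : overK (Ed (d : ℚ)) K = Ed (d : K) := by
    unfold overK Ed WeierstrassCurve.map
    simp only [map_zero, map_pow, map_mul, map_ofNat, map_intCast]
  have ha : (2 * ω + 1) ^ 2 = -3 := by linear_combination 4 * hω
  have hC : (1 : WeierstrassCurve.VariableChange K) •
      (Ed (d : K)).map (algebraMap K K) = Ed (d : K) := by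
    rw [one_smul, Algebra.algebraMap_self, WeierstrassCurve.map_id]
  obtain ⟨C', hC'⟩ := Emin_eq (K := K) (d := d)
  rw [hE]
  obtain ⟨g1, g2, -⟩ := Pool.Agent.H98.R.main hd hm.pos hB.ord hn hG hω h5 (Ed (d : K)) 1 hC
  obtain ⟨f1, -⟩ := g2 ⟨1, one_smul _ _⟩
  have hiff : Pool.Agent.H98.R.Tw d (CyclotomicField 3 ℚ) ↔ Pool.Agent.H98.R.Tw d M :=
    ⟨Pool.Agent.H98.R.tw_base hd (CyclotomicField 3 ℚ) M,
      Pool.Agent.H98.R.tw_base hd M (CyclotomicField 3 ℚ)⟩
  have hK : Pool.Agent.K7.H70.SM.Gz K := Pool.Agent.H98.A.gz_all hn hG ha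
  have hrk : Module.finrank ℤ (Ed (d : K)).toAffine.Point =
      2 * if Pool.Agent.H98.R.Tw d (CyclotomicField 3 ℚ) then 0 else 1 := by
    rw [f1]
    by_cases hT : Pool.Agent.H98.R.Tw d M
    · rw [if_pos hT, if_pos (hiff.2 hT)]
    · rw [if_neg hT, if_neg fun h' => hT (hiff.1 h')]
  have hFG : AddGroup.FG (Ed (d : K)).toAffine.Point := g1
  refine ⟨hasRank hFG hrk, ?_⟩
  by_cases hT : Pool.Agent.H98.R.Tw d (CyclotomicField 3 ℚ)
  · obtain ⟨n, ck, -, hLd, -⟩ := Pool.Agent.H98.W.lead_all hd hm.pos hB hn hG ha h5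
    refine ⟨_, hLd, fun h => ?_⟩
    rw [if_pos hT] at h
    exact absurd h zero_ne_one
  · obtain ⟨r, b0, hb0⟩ := exists_basis (Pool.Agent.H98.R.fgd (CyclotomicField 3 ℚ) d hd)
    have hr2 := card_basis hb0
    rw [(Pool.Agent.H98.R.rank_of hd hgC hpC).2 hT, Fintype.card_fin] at hr2
    subst hr2
    obtain ⟨l, hLd, o1, o2, o3, o4⟩ :=
      Pool.Agent.H98.W.rel hd hm.pos hB hb0 hΛ hCur hn hG hω h5 hC'
    have hSha : Sha2 (Ed (d : K)) = {0} := sha_eq fun x n hx => by
      refine Pool.Agent.H98.V.sha_of_rank hK hd h5 ?_ x hx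
      intro hT'
      obtain ⟨h0, -⟩ := Pool.Agent.H98.R.rank_of hd hK h5
      have h0' := h0 hT'
      rw [hrk, if_neg hT] at h0'
      exact absurd h0' (by norm_num)
    refine ⟨l, hLd, fun _ => ⟨hSha, fun u g hu hg => ?_⟩⟩
    exact compare (Q := ℚ) hB.1 q2 hlow.fg hlow.tor hU0 (sha_eq (hlow.sha hT)) t1 t2 t3
      (fun u hu => ⟨(hlow.reg hT u hu).1, (hlow.reg hT u hu).2 b0 hb0⟩) hFG o3 hK.two hSha o1 o2 o4
      hu hg

end Pool.Agent.Results.MP_f50388_nt.RankTwoTwoPart
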