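import Pool.Agent.H62.Fin4
import Pool.Agent.H62.Per
import Pool.Agent.H62.Cft4
import Pool.Agent.H62.EX.Done
import Pool.Agent.H40.EX.A1
import Pool.Agent.H62.SH.One

/-!
# The 3-part of the Birch and Swinnerton-Dyer formula for `y² + y = x³` over 3-extensions of `ℚ(√-3)`

Let `E : y² + y = x³`, `F = ℚ(√-3)`, and let `K / F` be any Galois extension of degree `3 ^ n`, `n ≥ 1`,
which is unramified outside one prime `(π)` of `F`, `π ≡ 1` modulo `3`, `π ≢ 1` modulo `9`.

We prove the 3-part of the formula of Birch and Swinnerton-Dyer for `E` over `K`.  Here three is the bad prime: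
it divides the discriminant of the curve (the reduction is additive at the prime above three), the degree of
`K / F`, the order of the torsion group (`9`) and the Tamagawa number (`3`), and three is ramified in the field
of complex multiplication.

* `E(K)` is finite, of order nine, and `Ш(E/K)[3^∞] = 0`;
* the Tamagawa numbers are `3` at the only prime above three and `1` at all the other primes; the equation is
  minimal;
* `L(E/K, s)` has a meromorphic continuation to the plane, analytic at `1`, with `L(E/K, 1) ≠ 0`;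
* `L(E/K, 1) √|Δ_K| #E(K)_tors² / (Ω_{E/K} ∏ c_v)` is a rational number, and a unit at three, as it has to be,
  since it is the order of `Ш(E/K)` by the formula.

Such extensions `K` exist for every `n ≥ 1`: for at least two thirds of all the primes of `F` with norm one modulo
`3 ^ (n + 1)` (lower density).

Proof.  (0) Class field theory: by Artin's law of reciprocity (with the exact conductor, `Pool.Agent.H62.Cft`)
the Galois group is cyclic, a quotient of `(𝓞 F / π)ˣ` by the Artin map.  (1) Algebraic side.  `K` contains a cube root of `± ω^i π`.  The prime above three is inert in `K/F`,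
as `π ≢ 1` modulo `9`.  The Selmer group of the endomorphism `√-3` over `K` is a group of classes `a` of `K^*`
modulo cubes, with a divisor which is a cube and such that `w³ = a² u³ + a s³` has a point over the completion
at three: a power of `ω` times `a` is a local cube.  The Galois group acts on this 3-group of classes, so if
the group is not generated by `ω`, there is a class outside which is fixed modulo `ω`; a descent along `K/F`,
with the total ramification at `π` and Kummer theory, contradicts this.  (2) Analytic side.  `L(E/K, s)` is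
the product of the L-functions of the Hecke character twisted by the characters of the Galois group, and of
the Euler factor of the prime above `π`, for which we know the valuation, `λ^6` with `λ = √-3`.  The value of
every factor is a unit at the places above three times the period: the congruence of the elliptic functions
modulo the prime above three.  (3) Existence.  By Chebotarev's theorem there is a prime `π` with `3 ^ (n + 1) ∣ N(π) - 1`
modulo which `√-3` is not a cube.  The existence theorem of class field theory, and a theorem on the conductor (a character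
whose Artin character is tame with conductor dividing `π` is unramified outside `π`), give the extension belonging to a character
of order `3 ^ n` modulo `π`.  The Frobenius automorphism at three generates the group, so there is one prime above three,
and then a generator of the cubic subextension shows `π ≢ 1` modulo `9`.  By the quantitative form of Chebotarev's theorem
two thirds of the primes with norm one modulo `3 ^ (n + 1)` can be used.
-/

set_option autoImplicit false

open NumberField IsDedekindDomain WeierstrassCurve MeasureTheory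
open scoped Classical

namespace Pool.Agent.Results.MP_f50388_nt.ThreePartCyclicTowers

open Pool.Agent.TH841.NF.D (Sha)

/-- `E : y² + y = x³`, over the ring `R` -/
def E (R : Type) [CommRing R] : WeierstrassCurve R := ⟨0, 0, 1, 0, 0⟩

section

variable {k : Type} [Field k] [NumberField k]

/-- The normalised absolute value of the completion `k_v`. -/
noncomputable def nabs (v : HeightOneSpectrum (𝓞 k)) (x : v.adicCompletion k) : ℝ :=
  if x = 0 then 0 else (Ideal.absNorm v.asIdeal : ℝ) ^ WithZero.log (Valued.v x)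

/-- A minimal Weierstrass equation of `W` over the completion `k_v`. -/
noncomputable def minEq (W : WeierstrassCurve k) (v : HeightOneSpectrum (𝓞 k)) :
    WeierstrassCurve (v.adicCompletion k) :=
  (W.baseChange (v.adicCompletion k)).minimal (v.adicCompletionIntegers k)

/-- `V⁰(k_v)`, the group of the points with nonsingular reduction of an equation `V` with integral
coefficients over the completion `k_v`: the point at infinity and the points `(x, y)` where one of the
partial derivatives `2 y + a₁ x + a₃` and `3 x² + 2 a₂ x + a₄ - a₁ y` does not lie in the maximal ideal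
(this is always so if `x` is not integral). -/
noncomputable def nonsing (v : HeightOneSpectrum (𝓞 k)) (V : WeierstrassCurve (v.adicCompletion k)) :
    AddSubgroup V.toAffine.Point :=
  AddSubgroup.closure {P | ∀ x y h, P = Affine.Point.some x y h →
    1 ≤ Valued.v (2 * y + V.a₁ * x + V.a₃) ∨
    1 ≤ Valued.v (3 * x ^ 2 + 2 * V.a₂ * x + V.a₄ - V.a₁ * y)}

/-- The Tamagawa number `c_v = [V(k_v) : V⁰(k_v)]`, where `V` is the minimal equation. -/
noncomputable def c (W : WeierstrassCurve k) (v : HeightOneSpectrum (𝓞 k)) : ℕ :=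
  (nonsing v (minEq W v)).index

/-- `|Δ_{v, min} / Δ|_v ^ (1 / 12)`. -/
noncomputable def corr (W : WeierstrassCurve k) (v : HeightOneSpectrum (𝓞 k)) : ℝ :=
  nabs v ((minEq W v).Δ / (W.baseChange (v.adicCompletion k)).Δ) ^ (1 / 12 : ℝ)

/-- `C_{W/k} = ∏ c_v |Δ_{v, min} / Δ|_v ^ (1 / 12)`. -/
noncomputable def prodC (W : WeierstrassCurve k) : ℝ :=
  ∏ᶠ v : HeightOneSpectrum (𝓞 k), (c W v : ℝ) * corr W v

/-- The 3-primary part of the Tate-Shafarevich group over `k`. -/
def Sha3 (W : WeierstrassCurve k) : Set (Sha W) := {x | ∃ n : ℕ, 3 ^ n • x = 0}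

end

/-- `4 x³ + b₂ x² + 2 b₄ x + b₆ = (2 y + a₁ x + a₃)²`. -/
def cubic (W : WeierstrassCurve ℤ) {R : Type} [CommRing R] (x : R) : R :=
  4 * x ^ 3 + W.b₂ * x ^ 2 + 2 * W.b₄ * x + W.b₆

/-- `Ω₊ = ∫_{W(ℝ)} |ω|` with `ω = dx / (2 y + a₁ x + a₃)`, as an integral over `x`: two real points lie
over each `x` with `cubic x > 0`. -/
noncomputable def realPeriod (W : WeierstrassCurve ℤ) : ℝ :=
  2 * ∫ x in {x : ℝ | 0 < cubic W x}, 1 / √(cubic W x)

/-- `Ω₋ = 2 ∫_{W(ℂ)} |ω ∧ ω̄|`, where `|ω ∧ ω̄| = du dv` in a local parameter `z = u + i v` with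
`dz = ω`, as an integral over `x`: two points lie over a general `x`, and `|ω ∧ ω̄|` is the area
element of the plane of `x` divided by `|cubic x|`. -/
noncomputable def complexPeriod (W : WeierstrassCurve ℤ) : ℝ := 2 * (2 * ∫ x : ℂ, 1 / ‖cubic W x‖)

/-- `Ω_{W/k} = Ω₊ ^ r₁ Ω₋ ^ r₂`. -/
noncomputable def Omega (k : Type) [Field k] [NumberField k] (W : WeierstrassCurve ℤ) : ℝ :=
  realPeriod W ^ InfinitePlace.nrRealPlaces k * complexPeriod W ^ InfinitePlace.nrComplexPlaces k

/-- The torsion subgroup of the group of the points over `k`. -/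
def tors (k : Type) [Field k] [NumberField k] : Set (E k).toAffine.Point :=
  {P | ∃ n : ℕ, 0 < n ∧ n • P = 0}

/-- `x(k) = l √|Disc k| (#E(k)_tors)² / (Ω_{E/k} C_{E/k})`, where `l = L(E/k, 1)`: by the formula this
is `#Ш(E/k)` if the rank is zero, and `0` otherwise. -/
noncomputable def value (k : Type) [Field k] [NumberField k] (l : ℂ) : ℂ :=
  l * (√|(discr k : ℝ)| : ℝ) * (Nat.card (tors k) : ℂ) ^ 2 / ((Omega k (E ℤ) : ℝ) * (prodC (E k) : ℝ))

/-- `Λ` is the meromorphic continuation of `L(E/k, s)` to the plane, and it is analytic at `1`. -/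
def IsContinuation (k : Type) [Field k] [NumberField k] (Λ : ℂ → ℂ) : Prop :=
  MeromorphicOn Λ Set.univ ∧ AnalyticAt ℂ Λ 1 ∧
    ∀ s : ℂ, 3 / 2 < s.re → LSeriesSummable ((fun n : ℤ => (n : ℂ)) ∘ (E k).LFunction) s ∧
      Λ s = (E k).LSeries s

/-- The arithmetic of `E` over `k`: `E(k)` is finite, all its points are torsion points, there are nine of
them, `Ш(E/k)[3^∞] = 0`, and the Tamagawa numbers are `3` at the primes above three and `1` at the others;
there is only one prime above three, so their product is three. -/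
structure Arithmetic (k : Type) [Field k] [NumberField k] : Prop where
  finite : Finite (E k).toAffine.Point
  tors_card : Nat.card (tors k) = 9
  points_card : Nat.card (E k).toAffine.Point = 9
  sha : Sha3 (E k) = {0}
  tam : ∀ v : HeightOneSpectrum (𝓞 k), c (E k) v = if (3 : 𝓞 k) ∈ v.asIdeal then 3 else 1
  corr : ∀ v : HeightOneSpectrum (𝓞 k), corr (E k) v = 1
  prod : prodC (E k) = 3
  omega : 0 < Omega k (E ℤ)

section proof

variable {k : Type} [Field k] [NumberField k]

lemma sha_eq (h : ∀ (n : ℕ) (x : Sha (E k)), 3 ^ n • x = 0 → x = 0) : Sha3 (E k) = {0} := by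
  apply Set.eq_singleton_iff_unique_mem.2
  exact ⟨⟨0, smul_zero _⟩, fun x hx => by
    obtain ⟨n, hn⟩ := hx
    exact h n x hn⟩

lemma tors_eq (hfin : Finite (E k).toAffine.Point) : tors k = Set.univ := by
  ext P
  simp only [Set.mem_univ, iff_true]
  exact ⟨addOrderOf P, addOrderOf_pos P, addOrderOf_nsmul_eq_zero P⟩

end proof

/-- `K / F` is one of the extensions of the theorem: Galois of degree `3 ^ n` and unramified outside the prime element
`π` of `F = ℚ(√-3)`, where `π ≡ 1` modulo `3`, `π ≢ 1` modulo `9`. -/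
structure IsTower (F K : Type) [Field F] [NumberField F] [Field K] [NumberField K] [Algebra F K]
    (n : ℕ) (π : 𝓞 F) : Prop where
  galois : IsGalois F K
  degree : Module.finrank F K = 3 ^ n
  prime : Prime π
  one : 3 ∣ π - 1
  nine : ¬ 9 ∣ π - 1
  unramified : ∀ w : HeightOneSpectrum (𝓞 K), algebraMap (𝓞 F) (𝓞 K) π ∉ w.asIdeal →
    Algebra.IsUnramifiedAt (𝓞 F) w.asIdeal

theorem main (F K : Type) [Field F] [NumberField F] [IsCyclotomicExtension {3} ℚ F] [Field K]
    [NumberField K] [Algebra F K] [IsGalois F K] (n : ℕ) (hn0 : n ≠ 0)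
    (hn : Module.finrank F K = 3 ^ n) (π : 𝓞 F) (hπ : Prime π) (h3 : 3 ∣ π - 1) (h9 : ¬ 9 ∣ π - 1)
    (hunr : ∀ w : HeightOneSpectrum (𝓞 K), algebraMap (𝓞 F) (𝓞 K) π ∉ w.asIdeal →
      Algebra.IsUnramifiedAt (𝓞 F) w.asIdeal) :
    Arithmetic K ∧ ∃ Λ : ℂ → ℂ, IsContinuation K Λ ∧ Λ 1 ≠ 0 ∧
      ∃ r : ℚ, value K (Λ 1) = r ∧ r ≠ 0 ∧ padicValRat 3 r = 0 := by
  obtain ⟨ζ, hζ⟩ := IsCyclotomicExtension.exists_isPrimitiveRoot ℚ F
    (Set.mem_singleton 3) (by norm_num)
  obtain ⟨art, hart⟩ := Pool.Agent.H62.Cft.art_of_one hn hπ h3 hunr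
  have hA : Pool.Agent.Y696.Art π art := hart
  have T := Pool.Agent.H62.tw_of_art hζ hn0 hn hA hπ h3 h9
  have hun3 : Pool.Agent.N883.T.Un3 F K := Pool.Agent.H62.un3_of hA h3
  obtain ⟨Λ, hΛ2, hΛ3⟩ : ∃ L : PeriodPair, L.g₂ = 0 ∧ L.g₃ = -1 := by
    obtain ⟨Λ, ω, p1, p2, p3⟩ := Pool.Agent.Y696.exists_real
    exact ⟨Λ, p1, p2⟩
  obtain ⟨hper, hpos⟩ := Pool.Agent.H62.cper hΛ2 hΛ3 (Cp := complexPeriod (E ℤ)) rfl
  obtain ⟨hr1, hr2⟩ := Pool.Agent.H62.places (F := F) (K := K) hn
  have hOm : Omega K (E ℤ) = (2 * |((starRingEnd ℂ) Λ.ω₁ * Λ.ω₂).im|) ^ 3 ^ n := by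
    unfold Omega
    rw [hr1, hr2, pow_zero, one_mul, hper]
  have hfin : Finite (E K).toAffine.Point := T.triv.1
  have hcard : Nat.card (E K).toAffine.Point = 9 := T.card_points hun3
  have htors : Nat.card (tors K) = 9 := by
    rw [tors_eq hfin]
    exact (Nat.card_congr (Equiv.Set.univ _)).trans hcard
  have hprod : prodC (E K) = 3 := T.prod hun3
  have hA : Arithmetic K :=
    { finite := hfin
      tors_card := htors
      points_card := hcard
      sha := sha_eq T.triv.2
      tam := fun v => by
        by_cases hv : (3 : 𝓞 K) ∈ v.asIdeal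
        · rw [if_pos hv]
          exact (T.tam hun3 v hv).1
        · rw [if_neg hv]
          exact (Pool.Agent.K7.H73.L3.away hv).1
      corr := fun v => by
        by_cases hv : (3 : 𝓞 K) ∈ v.asIdeal
        · exact (T.tam hun3 v hv).2
        · exact (Pool.Agent.K7.H73.L3.away hv).2
      prod := hprod
      omega := by
        rw [hOm, ← hper]
        positivity }
  refine ⟨hA, ?_⟩
  obtain ⟨L, a1, a2, a3, a4, a5⟩ := Pool.Agent.H62.analytic_K3 hn0 hn hart hπ h3 h9 T
  refine ⟨L, ⟨a1, a3, a2⟩, a4, ?_⟩
  obtain ⟨r, r1, r2, r3⟩ := a5 Λ hΛ2 hΛ3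
  refine ⟨r, ?_, r1, r2⟩
  rw [← r3]
  unfold value
  rw [htors, hprod, hOm]
  push_cast
  ring

/-- `v` is a prime with a generator `π` for which there is an extension `K / F` of the theorem of degree `3 ^ n`. -/
def HasTower (F : Type) [Field F] [NumberField F] (n : ℕ) (v : HeightOneSpectrum (𝓞 F)) : Prop :=
  ∃ π : 𝓞 F, v.asIdeal = Ideal.span {π} ∧
    ∃ (K : Type) (_ : Field K) (_ : NumberField K) (_ : Algebra F K), IsTower F K n π

/-- **The 3-part of the formula of Birch and Swinnerton-Dyer for `y² + y = x³` over the Galois extensions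
`K` of degree `3 ^ n` of `F = ℚ(√-3)` unramified outside one prime `π ≡ 1` modulo `3`, `π ≢ 1` modulo `9`**, and the
existence of such extensions of every degree `3 ^ n`, for at least two thirds of the primes of `F` with norm one modulo
`3 ^ (n + 1)`, in particular for primes of norms as large as one likes. -/
theorem result (F : Type) [Field F] [NumberField F] [IsCyclotomicExtension {3} ℚ F] (n : ℕ)
    (hn0 : n ≠ 0) :
    (∀ (K : Type) [Field K] [NumberField K] [Algebra F K] (π : 𝓞 F), IsTower F K n π →
      Arithmetic K ∧ ∃ Λ : ℂ → ℂ, IsContinuation K Λ ∧ Λ 1 ≠ 0 ∧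
        ∃ r : ℚ, value K (Λ 1) = r ∧ r ≠ 0 ∧ padicValRat 3 r = 0) ∧
    (∀ B : ℕ, ∃ v : HeightOneSpectrum (𝓞 F), B < Ideal.absNorm v.asIdeal ∧ HasTower F n v) ∧
    ∀ c : ℝ, c < 2 / 3 → ∀ᶠ X : ℕ in Filter.atTop,
      c * ({v : HeightOneSpectrum (𝓞 F) | Ideal.absNorm v.asIdeal ≤ X ∧
        3 ^ (n + 1) ∣ Ideal.absNorm v.asIdeal - 1}.ncard : ℝ) <
      ({v : HeightOneSpectrum (𝓞 F) | Ideal.absNorm v.asIdeal ≤ X ∧
        3 ^ (n + 1) ∣ Ideal.absNorm v.asIdeal - 1 ∧ HasTower F n v}.ncard : ℝ) := by
  refine ⟨fun K _ _ _ π h => ?_, fun B => ?_, fun c hc => ?_⟩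
  · have := h.galois
    exact main F K n hn0 h.degree π h.prime h.one h.nine h.unramified
  · obtain ⟨θ, hθ⟩ : ∃ θ : 𝓞 F, θ ^ 2 = -3 := by
      obtain ⟨ζ, hζ⟩ := IsCyclotomicExtension.exists_isPrimitiveRoot ℚ F
        (Set.mem_singleton 3) (by norm_num)
      exact ⟨2 * hζ.toInteger + 1, by linear_combination 4 * Pool.Agent.H62.zI hζ⟩
    obtain ⟨K, _, _, _, hgal, S, -, h2, h3, h4, h5, -, -, -⟩ :=
      Pool.Agent.H62.EX.goal Pool.Agent.H40.EX.sA1 F θ hθ n 0 B hn0
    obtain ⟨π, rfl⟩ := Finset.card_eq_one.1 h3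
    obtain ⟨k1, k2, -, k4, k5⟩ := h4 π (Finset.mem_singleton_self π)
    refine ⟨⟨Ideal.span {π}, (Ideal.span_singleton_prime k1.ne_zero).2 k1, by
      rw [Ne, Ideal.span_singleton_eq_bot]
      exact k1.ne_zero⟩, k4, π, rfl, K, inferInstance, inferInstance, inferInstance,
      hgal, h2, k1, (dvd_mul_right _ _).trans k2, k5 rfl, fun w hw => h5 w fun p hp => ?_⟩
    rw [Finset.mem_singleton.1 hp]
    exact hw
  · filter_upwards [Pool.Agent.H62.SH.share_one (F := F) Pool.Agent.H40.EX.sD hn0 hc] with X hX
    refine lt_of_lt_of_le hX (Nat.cast_le.2 (Set.ncard_le_ncard ?_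
      (Pool.Agent.Q129.LQ.fin_le X _)))
    rintro v ⟨h1, h2, π, h3, h4, h5, h6, K, _, _, _, h7, h8, h9⟩
    exact ⟨h1, h2, π, h3, K, inferInstance, inferInstance, inferInstance, h7, h8, h4, h5, h6, h9⟩

end Pool.Agent.Results.MP_f50388_nt.ThreePartCyclicTowers
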