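import Pool.Agent.H62.Lt6
import Pool.Agent.H62.Fin7
import Pool.Agent.H62.Per
import Pool.Agent.H62.Cft4
import Pool.Agent.H62.EX.Done
import Pool.Agent.H40.EX.A1
import Pool.Agent.H62.SH.TupN
import Pool.Agent.H62.SH.CHN
import Pool.Agent.H47.SH.P1N
import Pool.Agent.H47.SH.P3C
import Pool.Agent.H40.SH.P3L

/-!
# The 3-part of the Birch and Swinnerton-Dyer formula for `y² + y = x³` over cyclic extensions of `ℚ(√-3)` with several ramified primes and a large Tate-Shafarevich group

Let `E : y² + y = x³`, `F = ℚ(√-3)`, and let `K / F` be a cyclic extension of degree `3 ^ n`, `n ≥ 1`, with one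
prime above three, totally ramified at `k + 1 ≥ 2` primes `(π)`, `π ≡ 1` modulo `3 √-3`, and, if `n ≠ 1`,
`N(π) ≡ 1` modulo `3 ^ (n + 1)`, and unramified at all the others.  We assume

(R) a product of powers of the `π` that is a cube in the completions of `K` at the primes above the `π` is a
cube in `K`.

(For `k = 1`, two primes `π`, `π'`, this says that `π` is not a cube modulo `π'`.  In general it says that the
matrix of the cubic residue symbols, with the diagonal of a Laplace matrix, has the largest possible rank `k`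
over the field with three elements.)  Then:

* `E(K)` is finite, of order nine, the Tamagawa numbers are `3` at the only prime above three and `1` at the
  others, the equation is minimal;
* `L(E/K, s)` has a meromorphic continuation, analytic at `1`, and `L(E/K, 1) ≠ 0`;
* the number `x(K) = L(E/K, 1) √|Δ_K| #E(K)_tors² / (Ω_{E/K} ∏ c_v)`, which should be the order of `Ш(E/K)`, is
  rational, not zero, and its 3-adic valuation is exactly `2 n k`;
* `Ш(E/K)[3]` has exactly `9 ^ k` elements, `Ш(E/K)[3^∞]` is finite, killed by `3 ^ n`, and its order divides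
  the 3-part `3 ^ (2 n k)` of `x(K)`;
* in particular, for `n = 1`, for all these cubic extensions, `Ш(E/K)[3^∞] = (ℤ/3)^(2k)` and the 3-part of the
  formula holds: the order of `Ш(E/K)[3^∞]` is the 3-part of `x(K)`.

Such extensions `K` exist for all `n, k ≥ 1`, ramified at primes of norms as large as one likes, and they are frequent: let
`e 0, .., e k` be prime to three; for more than a third of all tuples of `k + 1` different primes `q i` of `F` with norms
`N(q i) ≡ 1` modulo `3 ^ (n + 1)` (in the sense of an iterated limit, `N(q i) ≤ X i`, every `X i` large in terms of the `X j`,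
`j < i`) there is such an extension `K / F` of degree `3 ^ n`, ramified exactly at the `q i`, with the cubic subextension
`F((∏ a i ^ e i)^(1/3))`, `a i ≡ 1` modulo `3 √-3` the generator of `q i`.

Three is the bad prime: the reduction is additive at the prime above three, three divides the degree of `K / F`, the
order of the torsion group and the Tamagawa number, and is ramified in the field of complex multiplication.

Proof.  (1) Analytic side: the value of the L-function of the Hecke character twisted by a character `χ ≠ 1`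
of the group (a product of characters `χ_π` modulo `π`) is expanded by inclusion and exclusion over the subsets of
the primes.  The terms are sums of elliptic functions.  The leading coefficients modulo the prime above three satisfy a
recursion whose solution is a sum over rooted spanning trees of the graph of the cubic residue symbols
(weighted with the symbols), that is, by Kirchhoff's theorem and the law of cubic reciprocity, a minor of the
Laplace matrix times the index of the Frobenius automorphism at three: not zero by (R) and as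
there is only one prime above three.  (2) Algebraic side: the Selmer group of `√-3` over `K` is generated by `ω`
and the `π`: otherwise there is a class which is fixed modulo these, and (R), the total ramification, Kummer
theory and Hilbert's theorem 90 give a contradiction.  With the tangent line at the flex `(-1, ω²)` (the
second class of a point) and (R) the group acts trivially on `E(K)` modulo `3 E(K)` and on `Ш(E/K)[3]`.  As `E(F)` is
finite and `Ш(E/F)[3^∞] = 0`, the norm (corestriction) is zero up to torsion, so the rank is zero and `3 ^ n` kills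
`Ш(E/K)[3^∞]`.  (3) Existence.  By Chebotarev's theorem there is a prime `π` with `3 ^ (n + 1) ∣ N(π) - 1` modulo which
`√-3` is not a cube; there are `k` rational primes `q ≡ -1` modulo `3 ^ (n + 1)` with `q ≡ 3` modulo `π`, so `π` is not a cube
modulo `q` (cubic reciprocity).  The existence theorem of class field theory, and a theorem on the conductor (a character
whose Artin character is tame with conductor dividing `c` is unramified outside `c`), give the extension belonging to the product of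
characters of order `3 ^ n` modulo `π` and the `q`.  It is totally ramified at these primes, the Frobenius automorphism at
three generates the group, and (R) holds as the `q` are cubes modulo each other.  (4) The share.  For the primes with
`N(q i) ≡ 1` modulo `3 ^ (n + 1)` the table of the cubic residue symbols of `√-3` and of the `a j`, `j < i`, at `q i` is
equidistributed (Chebotarev's theorem).  One prime above three means that the sum of the `e i` times the symbol of `√-3` at `q i` is
not zero (two thirds of the tables), and (R) means that the weighted Laplace matrix of the symmetric table has the rank `k`: the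
mean number of the vectors in the kernel shows that this is so for more than half of the tables.
-/

set_option autoImplicit false

open NumberField IsDedekindDomain WeierstrassCurve MeasureTheory
open scoped Classical

namespace Pool.Agent.Results.MP_f50388_nt.ThreePartSeveralPrimes

open Pool.Agent.TH841.NF.D (Sha)

/-- `E : y² + y = x³`, over the ring `R` -/
def E (R : Type) [CommRing R] : WeierstrassCurve R := ⟨0, 0, 1, 0, 0⟩

section

variable {k : Type} [Field k] [NumberField k]

/-- The normalised absolute value of the completion `k_v`. -/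
noncomputable def nabs (v : HeightOneSpectrum (𝓞 k)) (x : v.adicCompletion k) : ℝ :=
  if x = 0 then 0 else (Ideal.absNorm v.asIdeal : ℝ) ^ WithZero.log (Valued.v x)

/-- A minimal Weierstrass equation of `W` over the completion `k_v`. -/
noncomputable def minEq (W : WeierstrassCurve k) (v : HeightOneSpectrum (𝓞 k)) :
    WeierstrassCurve (v.adicCompletion k) :=
  (W.baseChange (v.adicCompletion k)).minimal (v.adicCompletionIntegers k)

/-- `V⁰(k_v)`, the group of the points with nonsingular reduction of an equation `V` with integral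
coefficients over the completion `k_v`: the point at infinity and the points `(x, y)` where one of the
partial derivatives `2 y + a₁ x + a₃` and `3 x² + 2 a₂ x + a₄ - a₁ y` does not lie in the maximal ideal
(this is always so if `x` is not integral). -/
noncomputable def nonsing (v : HeightOneSpectrum (𝓞 k)) (V : WeierstrassCurve (v.adicCompletion k)) :
    AddSubgroup V.toAffine.Point :=
  AddSubgroup.closure {P | ∀ x y h, P = Affine.Point.some x y h →
    1 ≤ Valued.v (2 * y + V.a₁ * x + V.a₃) ∨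
    1 ≤ Valued.v (3 * x ^ 2 + 2 * V.a₂ * x + V.a₄ - V.a₁ * y)}

/-- The Tamagawa number `c_v = [V(k_v) : V⁰(k_v)]`, where `V` is the minimal equation. -/
noncomputable def c (W : WeierstrassCurve k) (v : HeightOneSpectrum (𝓞 k)) : ℕ :=
  (nonsing v (minEq W v)).index

/-- `|Δ_{v, min} / Δ|_v ^ (1 / 12)`. -/
noncomputable def corr (W : WeierstrassCurve k) (v : HeightOneSpectrum (𝓞 k)) : ℝ :=
  nabs v ((minEq W v).Δ / (W.baseChange (v.adicCompletion k)).Δ) ^ (1 / 12 : ℝ)

/-- `C_{W/k} = ∏ c_v |Δ_{v, min} / Δ|_v ^ (1 / 12)`. -/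
noncomputable def prodC (W : WeierstrassCurve k) : ℝ :=
  ∏ᶠ v : HeightOneSpectrum (𝓞 k), (c W v : ℝ) * corr W v

/-- The 3-primary part of the Tate-Shafarevich group over `k`. -/
def Sha3 (W : WeierstrassCurve k) : Set (Sha W) := {x | ∃ n : ℕ, 3 ^ n • x = 0}

end

/-- `4 x³ + b₂ x² + 2 b₄ x + b₆ = (2 y + a₁ x + a₃)²`. -/
def cubic (W : WeierstrassCurve ℤ) {R : Type} [CommRing R] (x : R) : R :=
  4 * x ^ 3 + W.b₂ * x ^ 2 + 2 * W.b₄ * x + W.b₆

/-- `Ω₊ = ∫_{W(ℝ)} |ω|` with `ω = dx / (2 y + a₁ x + a₃)`, as an integral over `x`: two real points lie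
over each `x` with `cubic x > 0`. -/
noncomputable def realPeriod (W : WeierstrassCurve ℤ) : ℝ :=
  2 * ∫ x in {x : ℝ | 0 < cubic W x}, 1 / √(cubic W x)

/-- `Ω₋ = 2 ∫_{W(ℂ)} |ω ∧ ω̄|`, where `|ω ∧ ω̄| = du dv` in a local parameter `z = u + i v` with
`dz = ω`, as an integral over `x`: two points lie over a general `x`, and `|ω ∧ ω̄|` is the area
element of the plane of `x` divided by `|cubic x|`. -/
noncomputable def complexPeriod (W : WeierstrassCurve ℤ) : ℝ := 2 * (2 * ∫ x : ℂ, 1 / ‖cubic W x‖)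

/-- `Ω_{W/k} = Ω₊ ^ r₁ Ω₋ ^ r₂`. -/
noncomputable def Omega (k : Type) [Field k] [NumberField k] (W : WeierstrassCurve ℤ) : ℝ :=
  realPeriod W ^ InfinitePlace.nrRealPlaces k * complexPeriod W ^ InfinitePlace.nrComplexPlaces k

/-- The torsion subgroup of the group of the points over `k`. -/
def tors (k : Type) [Field k] [NumberField k] : Set (E k).toAffine.Point :=
  {P | ∃ n : ℕ, 0 < n ∧ n • P = 0}

/-- `x(k) = l √|Disc k| (#E(k)_tors)² / (Ω_{E/k} C_{E/k})`, where `l = L(E/k, 1)`: by the formula this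
is `#Ш(E/k)` if the rank is zero, and `0` otherwise. -/
noncomputable def value (k : Type) [Field k] [NumberField k] (l : ℂ) : ℂ :=
  l * (√|(discr k : ℝ)| : ℝ) * (Nat.card (tors k) : ℂ) ^ 2 / ((Omega k (E ℤ) : ℝ) * (prodC (E k) : ℝ))

/-- `Λ` is the meromorphic continuation of `L(E/k, s)` to the plane, and it is analytic at `1`. -/
def IsContinuation (k : Type) [Field k] [NumberField k] (Λ : ℂ → ℂ) : Prop :=
  MeromorphicOn Λ Set.univ ∧ AnalyticAt ℂ Λ 1 ∧
    ∀ s : ℂ, 3 / 2 < s.re → LSeriesSummable ((fun n : ℤ => (n : ℂ)) ∘ (E k).LFunction) s ∧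
      Λ s = (E k).LSeries s

/-- (R): a product of powers of the elements of `S` that is a cube in the completions of `K` at all the primes
above the elements of `S` is a cube in `K`. -/
def LocalCubes (F K : Type) [Field F] [NumberField F] [Field K] [NumberField K] [Algebra F K]
    (S : Finset (𝓞 F)) : Prop :=
  ∀ x : 𝓞 F → ℕ,
    (∀ v : HeightOneSpectrum (𝓞 K), (∃ π ∈ S, algebraMap (𝓞 F) (𝓞 K) π ∈ v.asIdeal) →
      ∃ y : v.adicCompletion K,
        y ^ 3 = algebraMap K (v.adicCompletion K) (algebraMap F K (∏ π ∈ S, π ^ x π : 𝓞 F))) →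
    ∃ z : K, z ^ 3 = algebraMap F K (∏ π ∈ S, π ^ x π : 𝓞 F)

/-- The arithmetic of `E` over `k`: `E(k)` is finite, all its points are torsion points, there are nine of them, and
the Tamagawa numbers are `3` at the primes above three and `1` at the others; there is only one
prime above three, so their product is three. -/
structure Arithmetic (k : Type) [Field k] [NumberField k] : Prop where
  finite : Finite (E k).toAffine.Point
  tors_card : Nat.card (tors k) = 9
  points_card : Nat.card (E k).toAffine.Point = 9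
  tam : ∀ v : HeightOneSpectrum (𝓞 k), c (E k) v = if (3 : 𝓞 k) ∈ v.asIdeal then 3 else 1
  corr : ∀ v : HeightOneSpectrum (𝓞 k), corr (E k) v = 1
  prod : prodC (E k) = 3
  omega : 0 < Omega k (E ℤ)

/-- `K / F` is one of the extensions of the theorem: cyclic of degree `3 ^ n`, with one prime above three, totally
ramified at the `k + 1` prime elements of `S`, which are one modulo `3 √-3`, `θ = √-3`, and, if `n ≠ 1`, have norms that are
one modulo `3 ^ (n + 1)`, unramified at all other primes, and with (R). -/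
structure IsFamily (F K : Type) [Field F] [NumberField F] [Field K] [NumberField K] [Algebra F K]
    (n k : ℕ) (S : Finset (𝓞 F)) : Prop where
  galois : IsGalois F K
  cyclic : IsCyclic Gal(K/F)
  degree : Module.finrank F K = 3 ^ n
  card : S.card = k + 1
  primes : ∀ π ∈ S, Prime π ∧ (∃ θ : 𝓞 F, θ ^ 2 = -3 ∧ 3 * θ ∣ π - 1) ∧
    (n ≠ 1 → 3 ^ (n + 1) ∣ Ideal.absNorm (Ideal.span {π}) - 1)
  unramified : ∀ w : HeightOneSpectrum (𝓞 K), (∀ π ∈ S, algebraMap (𝓞 F) (𝓞 K) π ∉ w.asIdeal) →
    Algebra.IsUnramifiedAt (𝓞 F) w.asIdeal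
  ramified : ∀ π ∈ S, ∀ v : HeightOneSpectrum (𝓞 K), algebraMap (𝓞 F) (𝓞 K) π ∈ v.asIdeal →
    ∀ (g : Gal(K/F)) (x : 𝓞 K), g • x - x ∈ v.asIdeal
  three : ∀ v w : HeightOneSpectrum (𝓞 K), 3 ∈ v.asIdeal → 3 ∈ w.asIdeal → v = w
  cubes : LocalCubes F K S

/-- The tuples of `k + 1` different primes `q i` of `F` with `N(q i) ≡ 1` modulo `3 ^ (n + 1)` and `N(q i) ≤ X i`. -/
def Tuples (F : Type) [Field F] [NumberField F] (n k : ℕ) (X : Fin (k + 1) → ℕ) :
    Set (Fin (k + 1) → HeightOneSpectrum (𝓞 F)) :=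
  {q | Function.Injective q ∧ ∀ i, 3 ^ (n + 1) ∣ Ideal.absNorm (q i).asIdeal - 1 ∧
    Ideal.absNorm (q i).asIdeal ≤ X i}

/-- For all large `X 0`, for all `X 1` large in terms of `X 0`, for all `X 2` large in terms of `X 0`, `X 1`, and so on,
`P X` is true. -/
def Nested : (m : ℕ) → ((Fin m → ℕ) → Prop) → Prop
  | 0, P => P Fin.elim0
  | m + 1, P => Nested m fun X => ∀ᶠ x : ℕ in Filter.atTop, P (Fin.snoc (α := fun _ => ℕ) X x)

/-- There is an extension `K / F` of the theorem of degree `3 ^ n` which is ramified exactly at the primes `q i` and contains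
the cube root of `∏ a i ^ e i`, `a i ≡ 1` modulo `3 √-3` the generator of the prime `q i`. -/
def Good (F : Type) [Field F] [NumberField F] (n k : ℕ) (e : Fin (k + 1) → ℕ)
    (q : Fin (k + 1) → HeightOneSpectrum (𝓞 F)) : Prop :=
  ∃ a : Fin (k + 1) → 𝓞 F, (∀ i, (q i).asIdeal = Ideal.span {a i} ∧ ∃ θ : 𝓞 F, θ ^ 2 = -3 ∧ 3 * θ ∣ a i - 1) ∧
    ∃ (K : Type) (_ : Field K) (_ : NumberField K) (_ : Algebra F K),
      IsFamily F K n k (Finset.univ.image a) ∧ ∃ b : K, b ^ 3 = algebraMap F K ((∏ i, a i ^ e i : 𝓞 F) : F)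

theorem main (F K : Type) [Field F] [NumberField F] [IsCyclotomicExtension {3} ℚ F] [Field K]
    [NumberField K] [Algebra F K] [IsGalois F K] [IsCyclic Gal(K/F)] (n : ℕ) (hn0 : n ≠ 0)
    (hn : Module.finrank F K = 3 ^ n) (θ : 𝓞 F) (hθ : θ ^ 2 = -3) (S : Finset (𝓞 F)) (k : ℕ)
    (hk : S.card = k + 1)
    (hS : ∀ π ∈ S, Prime π ∧ 3 * θ ∣ π - 1 ∧
      (n ≠ 1 → 3 ^ (n + 1) ∣ Ideal.absNorm (Ideal.span {π}) - 1))
    (hunr : ∀ w : HeightOneSpectrum (𝓞 K), (∀ π ∈ S, algebraMap (𝓞 F) (𝓞 K) π ∉ w.asIdeal) →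
      Algebra.IsUnramifiedAt (𝓞 F) w.asIdeal)
    (htot : ∀ π ∈ S, ∀ v : HeightOneSpectrum (𝓞 K), algebraMap (𝓞 F) (𝓞 K) π ∈ v.asIdeal →
      ∀ (g : Gal(K/F)) (x : 𝓞 K), g • x - x ∈ v.asIdeal)
    (h3 : ∀ v w : HeightOneSpectrum (𝓞 K), 3 ∈ v.asIdeal → 3 ∈ w.asIdeal → v = w)
    (hR : LocalCubes F K S) :
    Arithmetic K ∧
    ∃ Λ : ℂ → ℂ, IsContinuation K Λ ∧ Λ 1 ≠ 0 ∧
      ∃ r : ℚ, value K (Λ 1) = r ∧ r ≠ 0 ∧ padicValRat 3 r = 2 * n * k ∧
      Set.encard {x : Sha (E K) | 3 • x = 0} = 9 ^ k ∧
      (Sha3 (E K)).Finite ∧ (∀ x ∈ Sha3 (E K), 3 ^ n • x = 0) ∧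
      ∃ s : ℕ, Nat.card (Sha3 (E K)) = 3 ^ s ∧ 2 * k ≤ s ∧ (s : ℤ) ≤ padicValRat 3 r ∧
        (n = 1 → (s : ℤ) = padicValRat 3 r) := by
  have hθ2 : ∀ (ζ : F) (hζ : IsPrimitiveRoot ζ 3), θ = 2 * hζ.toInteger + 1 ∨
      θ = -(2 * hζ.toInteger + 1) := by
    intro ζ hζ
    have hI' : hζ.toInteger ^ 2 + hζ.toInteger + 1 = 0 := by
      apply FaithfulSMul.algebraMap_injective (𝓞 F) F
      rw [map_add, map_add, map_pow, map_one, map_zero]
      exact Pool.Agent.H62.quad_of hζ
    have h1 : (θ - (2 * hζ.toInteger + 1)) * (θ + (2 * hζ.toInteger + 1)) = 0 := by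
      linear_combination hθ - 4 * hI'
    rcases mul_eq_zero.1 h1 with h2 | h2
    · exact Or.inl (sub_eq_zero.1 h2)
    · exact Or.inr (eq_neg_of_add_eq_zero_left h2)
  obtain ⟨ζ, hζ⟩ := IsCyclotomicExtension.exists_isPrimitiveRoot ℚ F
    (Set.mem_singleton 3) (by norm_num)
  have hSp : ∀ π ∈ S, Prime π ∧ 3 * (2 * hζ.toInteger + 1) ∣ π - 1 := by
    intro π hπ
    refine ⟨(hS π hπ).1, ?_⟩
    have h1 := (hS π hπ).2.1
    rcases hθ2 ζ hζ with h2 | h2
    · rwa [h2] at h1
    · rw [h2, mul_neg, neg_dvd] at h1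
      exact h1
  have hS3 : ∀ π ∈ S, Prime π ∧ (3 : 𝓞 F) ∣ π - 1 := fun π hπ =>
    ⟨(hS π hπ).1, (dvd_mul_right _ _).trans (hS π hπ).2.1⟩
  have h3c : (3 : 𝓞 F) ∣ (∏ π ∈ S, π) - 1 := Pool.Agent.H62.three_dvd_prod hS3
  obtain ⟨art, hart⟩ := Pool.Agent.H62.Cft.art_of_cyclic (K := K) hn
    (Finset.prod_ne_zero_iff.2 fun π hπ => (hS π hπ).1.ne_zero) h3c (fun w hw =>
      hunr w fun π hπ h => hw (by
        rw [map_prod]
        exact w.asIdeal.mem_of_dvd (Finset.dvd_prod_of_mem _ hπ) h))
  have hA : Pool.Agent.Y696.Art (∏ π ∈ S, π) art := hart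
  have htot' : ∀ v : HeightOneSpectrum (𝓞 K), algebraMap (𝓞 F) (𝓞 K) (∏ p ∈ S, p) ∈ v.asIdeal →
      ∀ (g : Gal(K/F)) (x : 𝓞 K), g • x - x ∈ v.asIdeal := by
    intro v hv
    rw [map_prod] at hv
    have := v.isPrime
    obtain ⟨p, hp, hpv⟩ := Ideal.IsPrime.prod_mem_iff.1 hv
    exact htot p hp v hpv
  have hun3 : Pool.Agent.N883.T.Un3 F K := Pool.Agent.H62.un3_of hA h3c
  have T := Pool.Agent.H62.ms_of_art hζ hn0 hn hS3 hun3 htot h3
  have hunrS : Pool.Agent.H62.UnrS K S := Pool.Agent.H62.unrS_of hA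
  obtain ⟨e, β, D⟩ := T.td hunrS hSp (fun π hπ => by
    by_cases hn1 : n = 1
    · subst hn1
      exact Pool.Agent.H62.nine_Nm hζ (hSp π hπ).2
    · exact (hS π hπ).2.2 hn1) hR
  have hcx : IsTotallyComplex K := Pool.Agent.H62.complex_K (F := F) hn
  obtain ⟨hfin, hsha, hexp, s, hs1, hs2, hs3⟩ := T.algebra hn hunrS D hk
  obtain ⟨Λ, hΛ2, hΛ3⟩ : ∃ L : PeriodPair, L.g₂ = 0 ∧ L.g₃ = -1 := by
    obtain ⟨Λ, ω, p1, p2, p3⟩ := Pool.Agent.Y696.exists_real
    exact ⟨Λ, p1, p2⟩
  obtain ⟨hper, hpos⟩ := Pool.Agent.H62.cper hΛ2 hΛ3 (Cp := complexPeriod (E ℤ)) rfl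
  obtain ⟨hr1, hr2⟩ := Pool.Agent.H62.places (F := F) (K := K) hn
  have hOm : Omega K (E ℤ) = (2 * |((starRingEnd ℂ) Λ.ω₁ * Λ.ω₂).im|) ^ 3 ^ n := by
    unfold Omega
    rw [hr1, hr2, pow_zero, one_mul, hper]
  have htors : Nat.card (tors K) = 9 := T.card_tors
  have hfin' : Finite (E K).toAffine.Point := hfin
  have htu : tors K = Set.univ := by
    ext P
    simp only [Set.mem_univ, iff_true]
    exact ⟨addOrderOf P, addOrderOf_pos P, addOrderOf_nsmul_eq_zero P⟩
  have hcard : Nat.card (E K).toAffine.Point = 9 := by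
    rw [← htors, htu]
    exact (Nat.card_congr (Equiv.Set.univ _)).symm
  have hprod : prodC (E K) = 3 := T.prod
  refine ⟨?_, ?_⟩
  · exact
      { finite := hfin
        tors_card := htors
        points_card := hcard
        tam := fun v => by
          by_cases hv : (3 : 𝓞 K) ∈ v.asIdeal
          · rw [if_pos hv]
            exact (T.tam v hv).1
          · rw [if_neg hv]
            exact (Pool.Agent.K7.H73.L3.away hv).1
        corr := fun v => by
          by_cases hv : (3 : 𝓞 K) ∈ v.asIdeal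
          · exact (T.tam v hv).2
          · exact (Pool.Agent.K7.H73.L3.away hv).2
        prod := hprod
        omega := by
          rw [hOm, ← hper]
          positivity }
  · obtain ⟨L, a1, a2, a3, a5⟩ := Pool.Agent.H62.analytic_KX hn0 hn T.zeta D hk rfl hA htot' h3
    obtain ⟨r, ⟨r0, r1⟩, r3⟩ := a5 Λ hΛ2 hΛ3
    have hval : value K (L 1) = r := by
      rw [← r3]
      unfold value
      rw [htors, hprod, hOm]
      push_cast
      ring
    refine ⟨L, ⟨a1, a3, a2⟩, ?_, r, hval, r0, by rw [r1]; push_cast; ring, hsha, ?_, hexp, s, hs1,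
      hs2, ?_, ?_⟩
    · intro h0
      apply r0
      have h1 : ((r : ℚ) : ℂ) = 0 := by
        rw [← hval, h0]
        unfold value
        simp
      exact_mod_cast h1
    · refine Set.finite_coe_iff.1 (Nat.finite_of_card_ne_zero (α := Sha3 (E K)) ?_)
      rw [show Nat.card (Sha3 (E K)) = 3 ^ s from hs1]
      positivity
    · rw [r1]
      exact_mod_cast hs3
    · intro h1
      rw [r1]
      subst h1
      have : s = 2 * 1 * k := le_antisymm hs3 (by omega)
      exact_mod_cast this

theorem nested_iff : ∀ (m : ℕ) (P : (Fin m → ℕ) → Prop), Nested m P ↔ Pool.Agent.Q283.LQ.Nest m P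
  | 0, _ => Iff.rfl
  | m + 1, P => nested_iff m _

/-- **The 3-part of the formula of Birch and Swinnerton-Dyer for `y² + y = x³` over the cyclic extensions `K` of
degree `3 ^ n` of `F = ℚ(√-3)` with one prime above three, totally ramified at `k + 1 ≥ 2` primes with (R), and
unramified at the others**, for all `n` and `k` the existence of such extensions, ramified at primes of norms as large
as one likes, and a positive proportion: for each vector `e` of exponents prime to three more than a third of the tuples of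
`k + 1` primes with norms one modulo `3 ^ (n + 1)` give such an extension. -/
theorem result (F : Type) [Field F] [NumberField F] [IsCyclotomicExtension {3} ℚ F] (n k : ℕ)
    (hn0 : n ≠ 0) (hk0 : k ≠ 0) :
    (∀ (K : Type) [Field K] [NumberField K] [Algebra F K] (S : Finset (𝓞 F)), IsFamily F K n k S →
      Arithmetic K ∧
      ∃ Λ : ℂ → ℂ, IsContinuation K Λ ∧ Λ 1 ≠ 0 ∧
        ∃ r : ℚ, value K (Λ 1) = r ∧ r ≠ 0 ∧ padicValRat 3 r = 2 * n * k ∧
        Set.encard {x : Sha (E K) | 3 • x = 0} = 9 ^ k ∧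
        (Sha3 (E K)).Finite ∧ (∀ x ∈ Sha3 (E K), 3 ^ n • x = 0) ∧
        ∃ s : ℕ, Nat.card (Sha3 (E K)) = 3 ^ s ∧ 2 * k ≤ s ∧ (s : ℤ) ≤ padicValRat 3 r ∧
          (n = 1 → (s : ℤ) = padicValRat 3 r)) ∧
    (∀ B : ℕ, ∃ (K : Type) (_ : Field K) (_ : NumberField K) (_ : Algebra F K) (S : Finset (𝓞 F)),
      IsFamily F K n k S ∧ ∀ π ∈ S, B < Ideal.absNorm (Ideal.span {π})) ∧
    ∀ e : Fin (k + 1) → ℕ, (∀ i, ¬ 3 ∣ e i) → Nested (k + 1) fun X =>
      (Tuples F n k X).Finite ∧ 0 < (Tuples F n k X).ncard ∧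
        (Tuples F n k X).ncard < 3 * {q ∈ Tuples F n k X | Good F n k e q}.ncard := by
  obtain ⟨θ, hθ⟩ : ∃ θ : 𝓞 F, θ ^ 2 = -3 := by
    obtain ⟨ζ, hζ⟩ := IsCyclotomicExtension.exists_isPrimitiveRoot ℚ F
      (Set.mem_singleton 3) (by norm_num)
    exact ⟨2 * hζ.toInteger + 1, by linear_combination 4 * Pool.Agent.H62.zI hζ⟩
  refine ⟨fun K _ _ _ S h => ?_, fun B => ?_, fun e he => ?_⟩
  · have := h.galois
    have := h.cyclic
    refine main F K n hn0 h.degree θ hθ S k h.card (fun π hπ => ?_) h.unramified h.ramified h.three h.cubes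
    obtain ⟨h1, ⟨θ', h2, h3⟩, h4⟩ := h.primes π hπ
    refine ⟨h1, ?_, h4⟩
    have h5 : (θ' - θ) * (θ' + θ) = 0 := by linear_combination h2 - hθ
    rcases mul_eq_zero.1 h5 with h6 | h6
    · rwa [sub_eq_zero.1 h6] at h3
    · rw [eq_neg_of_add_eq_zero_left h6, mul_neg, neg_dvd] at h3
      exact h3
  · obtain ⟨K, _, _, _, hgal, S, h1, h2, h3, h4, h5, h6, h7, h8⟩ :=
      Pool.Agent.H62.EX.goal Pool.Agent.H40.EX.sA1 F θ hθ n k B hn0
    exact ⟨K, inferInstance, inferInstance, inferInstance, S,
      ⟨hgal, h1, h2, h3, fun π hπ => ⟨(h4 π hπ).1, ⟨θ, hθ, (h4 π hπ).2.1⟩, fun _ => (h4 π hπ).2.2.1⟩,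
        h5, h6, h7, h8⟩, fun π hπ => (h4 π hπ).2.2.2.1⟩
  · rw [nested_iff]
    refine Pool.Agent.Q14.LK.nest_mono (k + 1) (fun X hX => ?_)
      (Pool.Agent.H62.SH.share_n (Pool.Agent.H47.SH.p1n Pool.Agent.H62.SH.chn) Pool.Agent.H47.SH.p3c
        Pool.Agent.H40.EX.sD Pool.Agent.H40.SH.p3l hθ hn0 k e he)
    obtain ⟨h1, h2, h3⟩ := hX
    have h1' : (Tuples F n k X).Finite := h1
    refine ⟨h1, h2, lt_of_lt_of_le h3 (Nat.mul_le_mul_left 3 (Set.ncard_le_ncard ?_ (h1'.subset fun q hq => hq.1)))⟩
    rintro q ⟨hq, a, ha, K, _, _, _, hfin, hb, k1, k2, k3, k4, k5, k6, k7⟩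
    refine ⟨hq, a, fun i => ⟨(ha i).1, θ, hθ, (ha i).2.2⟩, K, inferInstance, inferInstance, inferInstance, ?_, hb⟩
    refine ⟨k1, k2, hfin, k3, fun π hπ => ?_, k4, k5, k6, k7⟩
    obtain ⟨i, -, rfl⟩ := Finset.mem_image.1 hπ
    refine ⟨(ha i).2.1, ⟨θ, hθ, (ha i).2.2⟩, fun _ => ?_⟩
    have h4 := (hq.2 i).1
    rwa [(ha i).1] at h4

end Pool.Agent.Results.MP_f50388_nt.ThreePartSeveralPrimes
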